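import Pool.Agent.Q47.Cube.Null

open Set Metric Complex Filter Topology MeasureTheory
open scoped ENNReal NNReal ComplexConjugate

namespace Q47.Cube

variable {l : ℝ} {P : Set ℂ} {s : Finset (ℤ × ℤ)} {f : ℂ → Space} {α β : ℂ}

/-- The points of the interior of `P` which are mapped to the interior of the face `(i, b)`. -/
def O (f : ℂ → Space) (P : Set ℂ) (l : ℝ) (i : Fin 3) (b : Bool) : Set ℂ :=
  {y | y ∈ interior P ∧ f y i = (if b then l else 0) ∧ ∀ m, m ≠ i → 0 < f y m ∧ f y m < l}

theorem ne_succ (i : Fin 3) : i ≠ i + 1 ∧ i ≠ i + 2 ∧ i + 1 ≠ i + 2 := by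
  revert i
  decide

theorem O_local (him : f '' P = cubeSurface l) (hiso : ∀ p ∈ interior P, ∃ ε > 0,
    ∀ x ∈ ball p ε, ∀ y ∈ ball p ε, pathDist (cubeSurface l) (f x) (f y) = edist x y)
    {i : Fin 3} {b : Bool} {y : ℂ} (hy : y ∈ O f P l i b) : ∃ δ > 0, ball y δ ⊆ O f P l i b ∧
      ∀ x ∈ ball y δ, ∀ z ∈ ball y δ,
        dist (T f (i + 1) (i + 2) x) (T f (i + 1) (i + 2) z) = dist x z := by
  obtain ⟨h1, h2, h3⟩ := hy
  obtain ⟨ε, hε, g1, g2, g3⟩ := local_data him hiso h1
  obtain ⟨n1, n2, n3⟩ := ne_succ i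
  obtain ⟨-, δ, hδ, hδε, k1, k2⟩ := local_face hε g2 g3 n1 n2 n3 (h3 _ n1.symm) (h3 _ n2.symm)
  refine ⟨δ, hδ, ?_, k2⟩
  intro x hx
  obtain ⟨e1, e2, e3⟩ := k1 x hx
  refine ⟨g1 (ball_subset_ball hδε hx), by rw [e1, h2], fun m hm => ?_⟩
  rcases cases_three n1 n2 n3 m with rfl | rfl | rfl
  · exact absurd rfl hm
  · exact e2
  · exact e3

theorem isOpen_O (him : f '' P = cubeSurface l) (hiso : ∀ p ∈ interior P, ∃ ε > 0,
    ∀ x ∈ ball p ε, ∀ y ∈ ball p ε, pathDist (cubeSurface l) (f x) (f y) = edist x y)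
    (i : Fin 3) (b : Bool) : IsOpen (O f P l i b) := by
  rw [Metric.isOpen_iff]
  intro y hy
  obtain ⟨δ, hδ, h, -⟩ := O_local him hiso hy
  exact ⟨δ, hδ, h⟩

/-- A distance preserving map has a derivative of determinant `± 1`. -/
theorem deriv_iso {S : ℂ → ℂ} {x : ℂ} {r : ℝ} (hr : 0 < r)
    (hS : ∀ y ∈ ball x r, ∀ z ∈ ball x r, dist (S y) (S z) = dist y z) :
    ∃ D : ℂ →L[ℝ] ℂ, |D.det| = 1 ∧ HasFDerivAt S D x := by
  obtain ⟨α, hα, h⟩ := planar hr hS
  let a : Circle := ⟨α, mem_sphere_zero_iff_norm.2 hα⟩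
  have aux : ∀ L : ℂ →L[ℝ] ℂ, (∀ y ∈ ball x r, S y = S x + L (y - x)) → HasFDerivAt S L x := by
    intro L hL
    have h1 : HasFDerivAt (fun y => S x + (L y - L x)) L x :=
      ((L.hasFDerivAt (x := x)).sub_const (L x)).const_add (S x)
    refine h1.congr_of_eventuallyEq ?_
    filter_upwards [ball_mem_nhds x hr] with y hy
    rw [hL y hy, map_sub]
  rcases h with h | h
  · refine ⟨((rotation a).toContinuousLinearEquiv : ℂ →L[ℝ] ℂ), ?_, ?_⟩
    · have : ((rotation a).toContinuousLinearEquiv : ℂ →L[ℝ] ℂ).det = 1 := det_rotation a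
      rw [this, abs_one]
    · exact aux _ fun y hy => h y hy
  · refine ⟨((conjLIE.trans (rotation a)).toContinuousLinearEquiv : ℂ →L[ℝ] ℂ), ?_, ?_⟩
    · have h3 : ((conjLIE.trans (rotation a)).toContinuousLinearEquiv : ℂ →L[ℝ] ℂ).det =
          LinearMap.det (((rotation a).toLinearEquiv : ℂ →ₗ[ℝ] ℂ) ∘ₗ
            (conjLIE.toLinearEquiv : ℂ →ₗ[ℝ] ℂ)) := rfl
      rw [h3, LinearMap.det_comp, det_rotation, det_conjLIE]
      norm_num
    · exact aux _ fun y hy => h y hy

theorem injOn_T (hinj : InjOn f (interior P)) (i : Fin 3) (b : Bool) :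
    InjOn (T f (i + 1) (i + 2)) (O f P l i b) := by
  intro x hx y hy hxy
  obtain ⟨n1, n2, n3⟩ := ne_succ i
  apply hinj hx.1 hy.1
  have h1 : f x (i + 1) = f y (i + 1) := congrArg Complex.re hxy
  have h2 : f x (i + 2) = f y (i + 2) := congrArg Complex.im hxy
  ext m
  rcases cases_three n1 n2 n3 m with h | h | h
  · rw [h, hx.2.1, hy.2.1]
  · rw [h, h1]
  · rw [h, h2]

theorem volume_image_O (him : f '' P = cubeSurface l) (hinj : InjOn f (interior P))
    (hiso : ∀ p ∈ interior P, ∃ ε > 0,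
    ∀ x ∈ ball p ε, ∀ y ∈ ball p ε, pathDist (cubeSurface l) (f x) (f y) = edist x y)
    (i : Fin 3) (b : Bool) :
    volume (T f (i + 1) (i + 2) '' O f P l i b) = volume (O f P l i b) := by
  classical
  have h : ∀ x, ∃ D : ℂ →L[ℝ] ℂ, x ∈ O f P l i b → |D.det| = 1 ∧
      HasFDerivAt (T f (i + 1) (i + 2)) D x := by
    intro x
    by_cases hx : x ∈ O f P l i b
    · obtain ⟨δ, hδ, -, h⟩ := O_local him hiso hx
      obtain ⟨D, hD⟩ := deriv_iso hδ h
      exact ⟨D, fun _ => hD⟩
    · exact ⟨0, fun h => absurd h hx⟩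
  choose D hD using h
  have hm := (isOpen_O him hiso i b).measurableSet
  rw [← lintegral_abs_det_fderiv_eq_addHaar_image volume hm
    (fun x hx => (hD x hx).2.hasFDerivWithinAt) (injOn_T hinj i b)]
  have : ∫⁻ x in O f P l i b, ENNReal.ofReal |(D x).det| = ∫⁻ _ in O f P l i b, 1 := by
    refine setLIntegral_congr_fun hm fun x hx => ?_
    simp only [(hD x hx).1, ENNReal.ofReal_one]
  rw [this, setLIntegral_one]

theorem volume_square (l : ℝ) :
    volume (Ioo (0 : ℝ) l ×ℂ Ioo (0 : ℝ) l) = ENNReal.ofReal l * ENNReal.ofReal l := by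
  rw [volume_reProdIm, Real.volume_Ioo, sub_zero]

theorem volume_O (hl : 0 < l) (him : f '' region s = cubeSurface l)
    (hinj : InjOn f (interior (region s))) (hiso : ∀ p ∈ interior (region s), ∃ ε > 0,
    ∀ x ∈ ball p ε, ∀ y ∈ ball p ε, pathDist (cubeSurface l) (f x) (f y) = edist x y)
    (hg : ∀ y ∈ region s, F1 l (f y) = G1 l α β y ∧ F2 l (f y) = G2 l α β y)
    (i : Fin 3) (b : Bool) :
    volume (O f (region s) l i b) = ENNReal.ofReal l * ENNReal.ofReal l := by
  obtain ⟨n1, n2, n3⟩ := ne_succ i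
  rw [← volume_image_O him hinj hiso, ← volume_square]
  apply le_antisymm
  · refine measure_mono ?_
    rintro _ ⟨y, hy, rfl⟩
    rw [Complex.mem_reProdIm]
    exact ⟨hy.2.2 _ n1.symm, hy.2.2 _ n2.symm⟩
  · have hsub : Ioo (0 : ℝ) l ×ℂ Ioo (0 : ℝ) l ⊆ T f (i + 1) (i + 2) '' O f (region s) l i b ∪
        {τ : ℂ | ∃ q : ℂ, ¬ NonInt q ∧ cs l τ.re + cs l τ.im = G1 l α β q ∧
          cs l τ.re * cs l τ.im = G2 l α β q} := by
      intro t ht
      rw [Complex.mem_reProdIm] at ht
      obtain ⟨w, hw⟩ : ∃ w : Space, ∀ m, w m = if m = i then (if b then l else 0)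
          else if m = i + 1 then t.re else t.im :=
        ⟨WithLp.toLp 2 fun m => if m = i then (if b then l else 0)
          else if m = i + 1 then t.re else t.im, fun m => rfl⟩
      have w0 : w i = (if b then l else 0) := by rw [hw, if_pos rfl]
      have w1 : w (i + 1) = t.re := by rw [hw, if_neg n1.symm, if_pos rfl]
      have w2 : w (i + 2) = t.im := by rw [hw, if_neg n2.symm, if_neg n3.symm]
      have w0' : w i = 0 ∨ w i = l := by
        rw [w0]
        cases b
        · left; simp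
        · right; simp
      have hws : w ∈ cubeSurface l := by
        refine ⟨fun m => ?_, i, w0'⟩
        rcases cases_three n1 n2 n3 m with h | h | h
        · rw [h]
          rcases w0' with h' | h' <;> rw [h'] <;> constructor <;> linarith
        · rw [h, w1]
          exact ⟨ht.1.1.le, ht.1.2.le⟩
        · rw [h, w2]
          exact ⟨ht.2.1.le, ht.2.2.le⟩
      rw [← him] at hws
      obtain ⟨q, hq, hqw⟩ := hws
      by_cases hqn : NonInt q
      · left
        refine ⟨q, ⟨mem_interior_region hqn hq, by rw [hqw, w0], fun m hm => ?_⟩, ?_⟩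
        · rw [hqw]
          rcases cases_three n1 n2 n3 m with h | h | h
          · exact absurd h hm
          · rw [h, w1]; exact ht.1
          · rw [h, w2]; exact ht.2
        · apply Complex.ext
          · simp only [T, hqw, w1]
          · simp only [T, hqw, w2]
      · right
        obtain ⟨h1, h2⟩ := hg q hq
        rw [hqw] at h1 h2
        unfold F1 at h1
        unfold F2 at h2
        rw [sum_three n1 n2 n3 (fun m => cs l (w m)), cs_end hl.ne' w0', w1, w2] at h1
        rw [prod_three n1 n2 n3 (fun m => cs l (w m)), cs_end hl.ne' w0', w1, w2] at h2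
        exact ⟨q, hqn, by rw [← h1]; ring, by rw [← h2]; ring⟩
    refine (measure_mono hsub).trans ((measure_union_le _ _).trans ?_)
    rw [volume_class_null hl, add_zero]

theorem area (hl : 0 < l) (hα : ‖α‖ = 1) (him : f '' region s = cubeSurface l)
    (hinj : InjOn f (interior (region s))) (hiso : ∀ p ∈ interior (region s), ∃ ε > 0,
    ∀ x ∈ ball p ε, ∀ y ∈ ball p ε, pathDist (cubeSurface l) (f x) (f y) = edist x y)
    (hg : ∀ y ∈ region s, F1 l (f y) = G1 l α β y ∧ F2 l (f y) = G2 l α β y) :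
    (s.card : ℝ) = 6 * l ^ 2 := by
  have hα0 : α ≠ 0 := by
    rintro rfl
    rw [norm_zero] at hα
    norm_num at hα
  have hU : volume (⋃ x : Fin 3 × Bool, O f (region s) l x.1 x.2) =
      6 * (ENNReal.ofReal l * ENNReal.ofReal l) := by
    rw [measure_iUnion]
    · rw [tsum_fintype]
      simp only [volume_O hl him hinj hiso hg]
      simp
    · rintro ⟨i, b⟩ ⟨i', b'⟩ hne
      rw [Function.onFun, Set.disjoint_left]
      intro y hy hy'
      simp only at hy hy'
      by_cases hii : i = i'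
      · subst hii
        have e1 := hy.2.1
        have e2 := hy'.2.1
        rw [e1] at e2
        cases b <;> cases b'
        · exact hne rfl
        · simp at e2; exact hl.ne e2
        · simp at e2; exact hl.ne' e2
        · exact hne rfl
      · have e1 := hy.2.2 i' (Ne.symm hii)
        rw [hy'.2.1] at e1
        cases b'
        · simp at e1
        · simp at e1
    · exact fun x => (isOpen_O him hiso x.1 x.2).measurableSet
  have hsub : region s ⊆ (⋃ x : Fin 3 × Bool, O f (region s) l x.1 x.2) ∪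
      ({z : ℂ | ¬ NonInt z} ∪ {y : ℂ | ∃ n : ℤ, (α * y + β).re = n * l ∨
        (α * y + β).im = n * l}) := by
    intro y hy
    by_cases hyn : NonInt y
    swap
    · exact Or.inr (Or.inl hyn)
    have hyi := mem_interior_region hyn hy
    have hsurf : f y ∈ cubeSurface l := by rw [← him]; exact mem_image_of_mem f hy
    obtain ⟨i, hi⟩ := hsurf.2
    obtain ⟨n1, n2, n3⟩ := ne_succ i
    by_cases hin : ∀ m, m ≠ i → 0 < f y m ∧ f y m < l
    · left
      rcases hi with hi | hi
      · exact mem_iUnion.2 ⟨(i, false), hyi, by simpa using hi, hin⟩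
      · exact mem_iUnion.2 ⟨(i, true), hyi, by simpa using hi, hin⟩
    · right; right
      push Not at hin
      obtain ⟨j, hji, hj⟩ := hin
      have hj' : f y j = 0 ∨ f y j = l := by
        have h1 := hsurf.1 j
        by_cases h0 : 0 < f y j
        · right; exact le_antisymm h1.2 (hj h0)
        · left; exact le_antisymm (not_lt.1 h0) h1.1
      obtain ⟨k, hik, hjk⟩ : ∃ k : Fin 3, i ≠ k ∧ j ≠ k := by
        clear hj' hj hi hji
        revert i j
        decide
      obtain ⟨h1, h2⟩ := hg y hy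
      unfold F1 G1 at h1
      unfold F2 G2 at h2
      rw [sum_three hji.symm hik hjk (fun m => cs l (f y m)), cs_end hl.ne' hi,
        cs_end hl.ne' hj'] at h1
      rw [prod_three hji.symm hik hjk (fun m => cs l (f y m)), cs_end hl.ne' hi,
        cs_end hl.ne' hj'] at h2
      have h1' : cs l (α * y + β).re + cs l (α * y + β).im = 1 + cs l (f y k) := by
        rw [← h1]; ring
      have h2' : cs l (α * y + β).re * cs l (α * y + β).im = 1 * cs l (f y k) := by
        rw [← h2]; ring
      rcases pair_cases h1' h2' with ⟨h3, -⟩ | ⟨-, h3⟩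
      · obtain ⟨n, hn⟩ := cs_eq_one hl h3
        exact ⟨n, Or.inl hn⟩
      · obtain ⟨n, hn⟩ := cs_eq_one hl h3
        exact ⟨n, Or.inr hn⟩
  have hvol : (s.card : ℝ≥0∞) = 6 * (ENNReal.ofReal l * ENNReal.ofReal l) := by
    rw [← volume_region, ← hU]
    apply le_antisymm
    · refine (measure_mono hsub).trans ((measure_union_le _ _).trans ?_)
      rw [measure_union_null volume_not_nonInt (volume_grid_lines l hα0 β), add_zero]
    · refine measure_mono (iUnion_subset fun x y hy => interior_subset hy.1)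
  have h2 := congrArg ENNReal.toReal hvol
  rw [ENNReal.toReal_mul, ENNReal.toReal_mul, ENNReal.toReal_ofReal hl.le] at h2
  simp at h2
  rw [h2]
  ring

end Q47.Cube
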