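import Pool.Agent.Q47.Cube.Defs

open Set Metric Complex Filter Topology MeasureTheory
open scoped ENNReal NNReal

namespace Q47.Cube

theorem cell_eq (c : ℤ × ℤ) :
    cell c = Icc (c.1 : ℝ) (c.1 + 1) ×ℂ Icc (c.2 : ℝ) (c.2 + 1) := by
  ext z
  simp only [cell, mem_ofPred_eq, mem_reProdIm, mem_Icc]
  tauto

theorem isCompact_cell (c : ℤ × ℤ) : IsCompact (cell c) := by
  rw [cell_eq]
  exact isCompact_Icc.reProdIm isCompact_Icc

theorem isCompact_region (s : Finset (ℤ × ℤ)) : IsCompact (region s) :=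
  s.isCompact_biUnion fun c _ => isCompact_cell c

theorem cell_subset_closure (c : ℤ × ℤ) : cell c ⊆ closure (interior (cell c)) := by
  rw [cell_eq, interior_reProdIm, closure_reProdIm, interior_Icc, interior_Icc,
    closure_Ioo (by linarith), closure_Ioo (by linarith)]

theorem cell_subset_region {s : Finset (ℤ × ℤ)} {c : ℤ × ℤ} (hc : c ∈ s) : cell c ⊆ region s :=
  subset_biUnion_of_mem (u := cell) hc

theorem region_subset_closure (s : Finset (ℤ × ℤ)) : region s ⊆ closure (interior (region s)) :=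
  iUnion₂_subset fun c hc => (cell_subset_closure c).trans
    (closure_mono (interior_mono (cell_subset_region hc)))

/-- Both coordinates are not integers. -/
def NonInt (z : ℂ) : Prop := (∀ n : ℤ, z.re ≠ n) ∧ ∀ n : ℤ, z.im ≠ n

theorem mem_region_iff {s : Finset (ℤ × ℤ)} {z : ℂ} (hz : NonInt z) :
    z ∈ region s ↔ (⌊z.re⌋, ⌊z.im⌋) ∈ s := by
  constructor
  · intro h
    obtain ⟨c, hc, hzc⟩ := mem_iUnion₂.1 h
    obtain ⟨h1, h2, h3, h4⟩ := hzc
    have e1 : ⌊z.re⌋ = c.1 := by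
      rw [Int.floor_eq_iff]
      refine ⟨h1, lt_of_le_of_ne h2 ?_⟩
      have := hz.1 (c.1 + 1)
      push_cast at this
      exact this
    have e2 : ⌊z.im⌋ = c.2 := by
      rw [Int.floor_eq_iff]
      refine ⟨h3, lt_of_le_of_ne h4 ?_⟩
      have := hz.2 (c.2 + 1)
      push_cast at this
      exact this
    rw [e1, e2]
    exact hc
  · intro h
    refine mem_iUnion₂.2 ⟨_, h, ?_⟩
    exact ⟨Int.floor_le _, (Int.lt_floor_add_one _).le, Int.floor_le _,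
      (Int.lt_floor_add_one _).le⟩

theorem mem_interior_region {s : Finset (ℤ × ℤ)} {z : ℂ} (hz : NonInt z) (h : z ∈ region s) :
    z ∈ interior (region s) := by
  rw [mem_region_iff hz] at h
  refine interior_mono (cell_subset_region h) ?_
  rw [cell_eq, interior_reProdIm, interior_Icc, interior_Icc, mem_reProdIm]
  refine ⟨⟨lt_of_le_of_ne (Int.floor_le _) ?_, Int.lt_floor_add_one _⟩,
    ⟨lt_of_le_of_ne (Int.floor_le _) ?_, Int.lt_floor_add_one _⟩⟩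
  · exact fun h => hz.1 _ h.symm
  · exact fun h => hz.2 _ h.symm

/-- Small perturbations of a non-integer. -/
theorem floor_nonint {t : ℝ} (ht : ∀ n : ℤ, t ≠ n) : ∃ ε > 0, ∀ s : ℝ, |s| < ε →
    (∀ n : ℤ, t + s ≠ n) ∧ ⌊t + s⌋ = ⌊t⌋ := by
  have h1 : (⌊t⌋ : ℝ) < t := lt_of_le_of_ne (Int.floor_le t) (fun h => ht _ h.symm)
  have h2 : t < ⌊t⌋ + 1 := Int.lt_floor_add_one t
  refine ⟨min (t - ⌊t⌋) (⌊t⌋ + 1 - t), lt_min (by linarith) (by linarith), fun s hs => ?_⟩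
  have h3 := hs.trans_le (min_le_left _ _)
  have h4 := hs.trans_le (min_le_right _ _)
  rw [abs_lt] at h3 h4
  have h5 : (⌊t⌋ : ℝ) < t + s := by linarith
  have h6 : t + s < ⌊t⌋ + 1 := by linarith
  refine ⟨fun n hn => ?_, ?_⟩
  · rw [hn] at h5 h6
    have h7 : ⌊t⌋ < n := by exact_mod_cast h5
    have h8 : n < ⌊t⌋ + 1 := by exact_mod_cast h6
    omega
  · rw [Int.floor_eq_iff]
    exact ⟨h5.le, h6⟩

/-- Small perturbations of an integer. -/
theorem floor_int {n : ℤ} {s : ℝ} (hs0 : s ≠ 0) (hs : |s| < 1) :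
    (∀ m : ℤ, (n : ℝ) + s ≠ m) ∧ ⌊(n : ℝ) + s⌋ = if 0 < s then n else n - 1 := by
  rw [abs_lt] at hs
  rcases lt_or_gt_of_ne hs0 with h | h
  · refine ⟨fun m hm => ?_, ?_⟩
    · have h1 : ((n - 1 : ℤ) : ℝ) < m := by push_cast; linarith
      have h2 : (m : ℝ) < n := by linarith
      have h3 : n - 1 < m := by exact_mod_cast h1
      have h4 : m < n := by exact_mod_cast h2
      omega
    · rw [if_neg (by linarith), Int.floor_eq_iff]
      push_cast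
      exact ⟨by linarith, by linarith⟩
  · refine ⟨fun m hm => ?_, ?_⟩
    · have h1 : (n : ℝ) < m := by linarith
      have h2 : (m : ℝ) < ((n + 1 : ℤ) : ℝ) := by push_cast; linarith
      have h3 : n < m := by exact_mod_cast h1
      have h4 : m < n + 1 := by exact_mod_cast h2
      omega
    · rw [if_pos h, Int.floor_eq_iff]
      exact ⟨by linarith, by linarith⟩

/-- The sign of a real number. -/
noncomputable def sg (t : ℝ) : Bool := decide (0 < t)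

/-- For every real number the floor of small perturbations is constant on both sides. -/
theorem floor_pert (t : ℝ) : ∃ ε > 0, ∃ g : Bool → ℤ, ∀ s : ℝ, s ≠ 0 → |s| < ε →
    (∀ n : ℤ, t + s ≠ n) ∧ ⌊t + s⌋ = g (sg s) := by
  by_cases ht : ∃ n : ℤ, t = n
  · obtain ⟨n, rfl⟩ := ht
    refine ⟨1, one_pos, fun b => if b then n else n - 1, fun s hs0 hs => ?_⟩
    obtain ⟨h1, h2⟩ := floor_int (n := n) hs0 hs
    refine ⟨h1, h2.trans ?_⟩
    simp [sg]
  · have ht' : ∀ n : ℤ, t ≠ n := fun n hn => ht ⟨n, hn⟩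
    obtain ⟨ε, hε, h⟩ := floor_nonint ht'
    exact ⟨ε, hε, fun _ => ⌊t⌋, fun s _ hs => h s hs⟩

/-- The four points `z, i z, -z, -i z`. -/
theorem rot_re_im (z : ℂ) : ((z * I ^ 0).re = z.re ∧ (z * I ^ 0).im = z.im) ∧
    ((z * I ^ 1).re = -z.im ∧ (z * I ^ 1).im = z.re) ∧
    ((z * I ^ 2).re = -z.re ∧ (z * I ^ 2).im = -z.im) ∧
    ((z * I ^ 3).re = z.im ∧ (z * I ^ 3).im = -z.re) := by
  have h3 : I ^ 3 = -I := Complex.I_pow_three
  refine ⟨by simp, by simp, by simp, ?_⟩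
  rw [h3]
  simp

theorem even_aux (P : Fin 4 → Prop) [DecidablePred P] (b c : Bool) (g : Bool → Prop)
    (h0 : P 0 ↔ g b) (h1 : P 1 ↔ g c) (h2 : P 2 ↔ g (!b)) (h3 : P 3 ↔ g (!c)) :
    Even (Finset.univ.filter P).card := by
  classical
  rw [Finset.card_filter, Fin.sum_univ_four]
  simp only [h0, h1, h2, h3]
  by_cases ht : g true <;> by_cases hf : g false <;> cases b <;> cases c <;>
    simp [ht, hf] <;> decide

theorem sg_neg {t : ℝ} (ht : t ≠ 0) : sg (-t) = !sg t := by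
  unfold sg
  rcases lt_or_gt_of_ne ht with h | h
  · rw [decide_eq_true (by linarith), decide_eq_false (by linarith)]
    rfl
  · rw [decide_eq_false (by linarith), decide_eq_true h]
    rfl

theorem sg_mul {ρ t : ℝ} (hρ : 0 < ρ) : sg (ρ * t) = sg t := by
  unfold sg
  rw [decide_eq_decide]
  exact mul_pos_iff_of_pos_left hρ

theorem rot_bounds {z : ℂ} (hzr : z.re ≠ 0) (hzi : z.im ≠ 0) (k : Fin 4) :
    ((z * I ^ (k : ℕ)).re ≠ 0 ∧ |(z * I ^ (k : ℕ)).re| ≤ |z.re| + |z.im|) ∧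
    ((z * I ^ (k : ℕ)).im ≠ 0 ∧ |(z * I ^ (k : ℕ)).im| ≤ |z.re| + |z.im|) := by
  obtain ⟨⟨a0, b0⟩, ⟨a1, b1⟩, ⟨a2, b2⟩, ⟨a3, b3⟩⟩ := rot_re_im z
  have h1 := abs_nonneg z.re
  have h2 := abs_nonneg z.im
  fin_cases k
  · change ((z * I ^ 0).re ≠ 0 ∧ |(z * I ^ 0).re| ≤ |z.re| + |z.im|) ∧
      ((z * I ^ 0).im ≠ 0 ∧ |(z * I ^ 0).im| ≤ |z.re| + |z.im|)
    rw [a0, b0]
    exact ⟨⟨hzr, by linarith⟩, ⟨hzi, by linarith⟩⟩
  · change ((z * I ^ 1).re ≠ 0 ∧ |(z * I ^ 1).re| ≤ |z.re| + |z.im|) ∧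
      ((z * I ^ 1).im ≠ 0 ∧ |(z * I ^ 1).im| ≤ |z.re| + |z.im|)
    rw [a1, b1]
    exact ⟨⟨neg_ne_zero.2 hzi, by rw [abs_neg]; linarith⟩, ⟨hzr, by linarith⟩⟩
  · change ((z * I ^ 2).re ≠ 0 ∧ |(z * I ^ 2).re| ≤ |z.re| + |z.im|) ∧
      ((z * I ^ 2).im ≠ 0 ∧ |(z * I ^ 2).im| ≤ |z.re| + |z.im|)
    rw [a2, b2]
    exact ⟨⟨neg_ne_zero.2 hzr, by rw [abs_neg]; linarith⟩,
      ⟨neg_ne_zero.2 hzi, by rw [abs_neg]; linarith⟩⟩
  · change ((z * I ^ 3).re ≠ 0 ∧ |(z * I ^ 3).re| ≤ |z.re| + |z.im|) ∧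
      ((z * I ^ 3).im ≠ 0 ∧ |(z * I ^ 3).im| ≤ |z.re| + |z.im|)
    rw [a3, b3]
    exact ⟨⟨hzi, by linarith⟩, ⟨neg_ne_zero.2 hzr, by rw [abs_neg]; linarith⟩⟩

/-- Near a point of the region which is not a lattice point, an even number of the points
`p + ρ z i ^ k` is in the region, and these are interior points. -/
theorem local_even (s : Finset (ℤ × ℤ)) {p : ℂ}
    (hp : ¬ ((∃ n : ℤ, p.re = n) ∧ ∃ n : ℤ, p.im = n)) {z : ℂ} (hzr : z.re ≠ 0) (hzi : z.im ≠ 0) :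
    ∃ ε > 0, ∀ ρ : ℝ, 0 < ρ → ρ < ε → ∀ [DecidablePred fun k : Fin 4 =>
      p + ρ * (z * I ^ (k : ℕ)) ∈ region s],
      Even (Finset.univ.filter fun k : Fin 4 => p + ρ * (z * I ^ (k : ℕ)) ∈ region s).card ∧
      ∀ k : Fin 4, p + ρ * (z * I ^ (k : ℕ)) ∈ region s →
        p + ρ * (z * I ^ (k : ℕ)) ∈ interior (region s) := by
  obtain ⟨ε1, hε1, g1, hg1⟩ := floor_pert p.re
  obtain ⟨ε2, hε2, g2, hg2⟩ := floor_pert p.im
  have hM : 0 < |z.re| + |z.im| := by positivity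
  -- the coordinates
  have hre : ∀ (ρ : ℝ) (k : Fin 4), (p + ρ * (z * I ^ (k : ℕ))).re =
      p.re + ρ * (z * I ^ (k : ℕ)).re := fun ρ k => by
    rw [Complex.add_re, Complex.re_ofReal_mul]
  have him : ∀ (ρ : ℝ) (k : Fin 4), (p + ρ * (z * I ^ (k : ℕ))).im =
      p.im + ρ * (z * I ^ (k : ℕ)).im := fun ρ k => by
    rw [Complex.add_im, Complex.im_ofReal_mul]
  obtain ⟨⟨a0, b0⟩, ⟨a1, b1⟩, ⟨a2, b2⟩, ⟨a3, b3⟩⟩ := rot_re_im z
  have main : ∃ ε > 0, ∀ ρ : ℝ, 0 < ρ → ρ < ε → ∃ (b c : Bool) (g : Bool → Prop),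
      (p + ρ * (z * I ^ 0) ∈ region s ↔ g b) ∧ (p + ρ * (z * I ^ 1) ∈ region s ↔ g c) ∧
      (p + ρ * (z * I ^ 2) ∈ region s ↔ g (!b)) ∧ (p + ρ * (z * I ^ 3) ∈ region s ↔ g (!c)) := by
    by_cases hpr : ∃ n : ℤ, p.re = n
    · have hpi : ∀ n : ℤ, p.im ≠ n := fun n hn => hp ⟨hpr, n, hn⟩
      obtain ⟨ε3, hε3, h3⟩ := floor_nonint hpi
      refine ⟨min (ε1 / (|z.re| + |z.im|)) (ε3 / (|z.re| + |z.im|)), by positivity,
        fun ρ hρ hρε => ?_⟩
      have hb1 := (lt_div_iff₀ hM).1 (hρε.trans_le (min_le_left _ _))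
      have hb3 := (lt_div_iff₀ hM).1 (hρε.trans_le (min_le_right _ _))
      have key : ∀ k : Fin 4, p + ρ * (z * I ^ (k : ℕ)) ∈ region s ↔
          (g1 (sg (z * I ^ (k : ℕ)).re), ⌊p.im⌋) ∈ s := by
        intro k
        obtain ⟨⟨c1, c2⟩, ⟨c3, c4⟩⟩ := rot_bounds hzr hzi k
        have d1 : |ρ * (z * I ^ (k : ℕ)).re| < ε1 := by
          rw [abs_mul, abs_of_pos hρ]
          exact (mul_le_mul_of_nonneg_left c2 hρ.le).trans_lt hb1
        have d3 : |ρ * (z * I ^ (k : ℕ)).im| < ε3 := by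
          rw [abs_mul, abs_of_pos hρ]
          exact (mul_le_mul_of_nonneg_left c4 hρ.le).trans_lt hb3
        obtain ⟨e1, e2⟩ := hg1 _ (mul_ne_zero hρ.ne' c1) d1
        obtain ⟨e3, e4⟩ := h3 _ d3
        rw [mem_region_iff (by rw [NonInt, hre, him]; exact ⟨e1, e3⟩), hre, him, e2, e4,
          sg_mul hρ]
      refine ⟨sg z.re, sg (-z.im), fun B => (g1 B, ⌊p.im⌋) ∈ s, ?_, ?_, ?_, ?_⟩
      · have := key 0
        simp only [Fin.val_zero] at this
        rwa [a0] at this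
      · have := key 1
        simp only [Fin.val_one] at this
        rwa [a1] at this
      · have := key 2
        simp only [Fin.val_two] at this
        rwa [a2, sg_neg hzr] at this
      · have : p + ρ * (z * I ^ 3) ∈ region s ↔ (g1 (sg (z * I ^ 3).re), ⌊p.im⌋) ∈ s :=
          key 3
        rwa [a3, ← neg_neg z.im, sg_neg (neg_ne_zero.2 hzi)] at this
    · have hpr' : ∀ n : ℤ, p.re ≠ n := fun n hn => hpr ⟨n, hn⟩
      obtain ⟨ε3, hε3, h3⟩ := floor_nonint hpr'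
      refine ⟨min (ε2 / (|z.re| + |z.im|)) (ε3 / (|z.re| + |z.im|)), by positivity,
        fun ρ hρ hρε => ?_⟩
      have hb1 := (lt_div_iff₀ hM).1 (hρε.trans_le (min_le_left _ _))
      have hb3 := (lt_div_iff₀ hM).1 (hρε.trans_le (min_le_right _ _))
      have key : ∀ k : Fin 4, p + ρ * (z * I ^ (k : ℕ)) ∈ region s ↔
          (⌊p.re⌋, g2 (sg (z * I ^ (k : ℕ)).im)) ∈ s := by
        intro k
        obtain ⟨⟨c1, c2⟩, ⟨c3, c4⟩⟩ := rot_bounds hzr hzi k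
        have d1 : |ρ * (z * I ^ (k : ℕ)).re| < ε3 := by
          rw [abs_mul, abs_of_pos hρ]
          exact (mul_le_mul_of_nonneg_left c2 hρ.le).trans_lt hb3
        have d3 : |ρ * (z * I ^ (k : ℕ)).im| < ε2 := by
          rw [abs_mul, abs_of_pos hρ]
          exact (mul_le_mul_of_nonneg_left c4 hρ.le).trans_lt hb1
        obtain ⟨e1, e2⟩ := hg2 _ (mul_ne_zero hρ.ne' c3) d3
        obtain ⟨e3, e4⟩ := h3 _ d1
        rw [mem_region_iff (by rw [NonInt, hre, him]; exact ⟨e3, e1⟩), hre, him, e2, e4,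
          sg_mul hρ]
      refine ⟨sg z.im, sg z.re, fun B => (⌊p.re⌋, g2 B) ∈ s, ?_, ?_, ?_, ?_⟩
      · have := key 0
        simp only [Fin.val_zero] at this
        rwa [b0] at this
      · have := key 1
        simp only [Fin.val_one] at this
        rwa [b1] at this
      · have := key 2
        simp only [Fin.val_two] at this
        rwa [b2, sg_neg hzi] at this
      · have : p + ρ * (z * I ^ 3) ∈ region s ↔ (⌊p.re⌋, g2 (sg (z * I ^ 3).im)) ∈ s :=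
          key 3
        rwa [b3, sg_neg hzr] at this
  obtain ⟨ε, hε, h⟩ := main
  refine ⟨min ε (min (ε1 / (|z.re| + |z.im|)) (ε2 / (|z.re| + |z.im|))), by positivity, ?_⟩
  intro ρ hρ hρε inst
  obtain ⟨b, c, g, e0, e1, e2, e3⟩ := h ρ hρ (hρε.trans_le (min_le_left _ _))
  have hb1 := (lt_div_iff₀ hM).1 ((hρε.trans_le (min_le_right _ _)).trans_le (min_le_left _ _))
  have hb2 := (lt_div_iff₀ hM).1 ((hρε.trans_le (min_le_right _ _)).trans_le (min_le_right _ _))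
  refine ⟨?_, ?_⟩
  · exact even_aux _ b c g e0 e1 e2 e3
  · intro k hk
    refine mem_interior_region ?_ hk
    obtain ⟨⟨c1, c2⟩, ⟨c3, c4⟩⟩ := rot_bounds hzr hzi k
    have d1 : |ρ * (z * I ^ (k : ℕ)).re| < ε1 := by
      rw [abs_mul, abs_of_pos hρ]
      exact (mul_le_mul_of_nonneg_left c2 hρ.le).trans_lt hb1
    have d3 : |ρ * (z * I ^ (k : ℕ)).im| < ε2 := by
      rw [abs_mul, abs_of_pos hρ]
      exact (mul_le_mul_of_nonneg_left c4 hρ.le).trans_lt hb2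
    rw [NonInt, hre, him]
    exact ⟨(hg1 _ (mul_ne_zero hρ.ne' c1) d1).1, (hg2 _ (mul_ne_zero hρ.ne' c3) d3).1⟩

end Q47.Cube
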