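import Pool.Agent.Q47.Cube.Vertex

open Set Metric Complex Filter Topology
open scoped ENNReal NNReal ComplexConjugate

namespace Q47.Cube

variable {l : ℝ} {s : Finset (ℤ × ℤ)} {f : ℂ → Space} {α β : ℂ} {v : Space}

theorem grid_at_vertex (hl : 0 < l) (hg : ∀ y ∈ region s, F1 l (f y) = G1 l α β y ∧
    F2 l (f y) = G2 l α β y) (hv : v ∈ Vert l) {p : ℂ} (hp : p ∈ region s) (hpv : f p = v) :
    ∃ a b : ℤ, (α * p + β).re = a * l ∧ (α * p + β).im = b * l := by
  obtain ⟨h1, -⟩ := hg p hp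
  unfold F1 G1 at h1
  rw [hpv, cs_end hl.ne' (hv 0), cs_end hl.ne' (hv 1), cs_end hl.ne' (hv 2)] at h1
  have h2 := cs_le_one l (α * p + β).re
  have h3 := cs_le_one l (α * p + β).im
  obtain ⟨a, ha⟩ := cs_eq_one hl (t := (α * p + β).re) (by linarith)
  obtain ⟨b, hb⟩ := cs_eq_one hl (t := (α * p + β).im) (by linarith)
  exact ⟨a, b, ha, hb⟩

theorem separated (hl : 0 < l) (hα : ‖α‖ = 1) (hg : ∀ y ∈ region s, F1 l (f y) = G1 l α β y ∧
    F2 l (f y) = G2 l α β y) (hv : v ∈ Vert l) {p q : ℂ} (hp : p ∈ region s) (hpv : f p = v)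
    (hq : q ∈ region s) (hqv : f q = v) (hpq : p ≠ q) : l ≤ dist p q := by
  obtain ⟨a, b, ha, hb⟩ := grid_at_vertex hl hg hv hp hpv
  obtain ⟨c, d, hc, hd⟩ := grid_at_vertex hl hg hv hq hqv
  have h1 : α * (p - q) = (α * p + β) - (α * q + β) := by ring
  have h2 : (α * (p - q)).re = (a - c) * l := by rw [h1, Complex.sub_re, ha, hc]; ring
  have h3 : (α * (p - q)).im = (b - d) * l := by rw [h1, Complex.sub_im, hb, hd]; ring
  have h4 : dist p q = ‖α * (p - q)‖ := by rw [norm_mul, hα, one_mul, dist_eq_norm]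
  have h5 : dist p q ^ 2 = ((a - c) ^ 2 + (b - d) ^ 2) * l ^ 2 := by
    rw [h4, Complex.sq_norm, Complex.normSq_apply, h2, h3]
    ring
  have h6 : ((a - c) ^ 2 + (b - d) ^ 2 : ℤ) ≠ 0 := by
    intro h
    have e1 : a - c = 0 := by nlinarith [sq_nonneg (a - c), sq_nonneg (b - d)]
    have e2 : b - d = 0 := by nlinarith [sq_nonneg (a - c), sq_nonneg (b - d)]
    have e3 : ((a : ℝ) - c) = 0 := by exact_mod_cast e1
    have e4 : ((b : ℝ) - d) = 0 := by exact_mod_cast e2
    rw [e3, e4] at h5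
    have : dist p q = 0 := by
      have : dist p q ^ 2 = 0 := by rw [h5]; ring
      exact pow_eq_zero_iff (two_ne_zero) |>.1 this
    exact hpq (dist_eq_zero.1 this)
  have h7 : (1 : ℤ) ≤ (a - c) ^ 2 + (b - d) ^ 2 := by
    have : 0 ≤ (a - c) ^ 2 + (b - d) ^ 2 := by positivity
    omega
  have h8 : (1 : ℝ) ≤ ((a : ℝ) - c) ^ 2 + (b - d) ^ 2 := by exact_mod_cast h7
  rw [← sq_le_sq₀ hl.le dist_nonneg, h5]
  nlinarith [sq_nonneg l]

theorem I_pow_inj {k k' : Fin 4} (h : I ^ (k : ℕ) = I ^ (k' : ℕ)) : k = k' := by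
  have h3 : I ^ 3 = -I := Complex.I_pow_three
  have hre := congrArg Complex.re h
  have him := congrArg Complex.im h
  fin_cases k <;> fin_cases k' <;> first | rfl | (exfalso; revert hre him; simp [h3]; try norm_num)

/-- The displacement formula for the symmetric functions. -/
theorem grid_displacement (hl : 0 < l) {p d : ℂ} (hp : ∃ a b : ℤ, (α * p + β).re = a * l ∧
    (α * p + β).im = b * l) : G1 l α β (p + d) = cs l (α * d).re + cs l (α * d).im ∧
    G2 l α β (p + d) = cs l (α * d).re * cs l (α * d).im := by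
  obtain ⟨a, b, ha, hb⟩ := hp
  unfold G1 G2
  have h1 : α * (p + d) + β = (α * p + β) + α * d := by ring
  rw [h1, Complex.add_re, Complex.add_im, ha, hb, cs_add_int hl, cs_add_int hl]
  exact ⟨rfl, rfl⟩

open Classical in
/-- Every vertex of the cube is the image of a lattice point of the polyomino. -/
theorem vertex_lattice (hl : 0 < l) (hf : ContinuousOn f (region s))
    (him : f '' region s = cubeSurface l) (hinj : InjOn f (interior (region s))) (hα : ‖α‖ = 1)
    (hg : ∀ y ∈ region s, F1 l (f y) = G1 l α β y ∧ F2 l (f y) = G2 l α β y) (hv : v ∈ Vert l) :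
    ∃ p ∈ region s, f p = v ∧ (∃ n : ℤ, p.re = n) ∧ ∃ n : ℤ, p.im = n := by
  by_contra hno
  push Not at hno
  have hPc : IsCompact (region s) := isCompact_region s
  obtain ⟨K, hKdef⟩ : ∃ K : Set ℂ, K = region s ∩ f ⁻¹' {v} := ⟨_, rfl⟩
  have hKmem : ∀ p, p ∈ K ↔ p ∈ region s ∧ f p = v := fun p => by rw [hKdef]; rfl
  have hKc : IsCompact K := by
    refine hPc.of_isClosed_subset ?_ (by rw [hKdef]; exact inter_subset_left)
    rw [hKdef]
    exact hf.preimage_isClosed_of_isClosed hPc.isClosed isClosed_singleton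
  have hsep : ∀ p ∈ K, ∀ q ∈ K, p ≠ q → l ≤ dist p q := fun p hp q hq hpq =>
    separated hl hα hg hv ((hKmem p).1 hp).1 ((hKmem p).1 hp).2 ((hKmem q).1 hq).1
      ((hKmem q).1 hq).2 hpq
  have hKfin : K.Finite := by
    refine hKc.finite ?_
    rw [isDiscrete_iff_discreteTopology]
    exact DiscreteTopology.of_forall_le_dist hl fun x y hxy =>
      hsep x x.2 y y.2 (fun h => hxy (Subtype.ext h))
  obtain ⟨b, hzr, hzi⟩ := good_direction hα
  obtain ⟨z, hz⟩ : ∃ z, z = z0 b * conj α := ⟨_, rfl⟩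
  rw [← hz] at hzr hzi
  have hznorm : ‖z‖ ≤ 2 := by
    rw [hz, norm_mul, RCLike.norm_conj, hα, mul_one]
    cases b
    · simp [z0]
    · simp only [z0, if_true]
      refine (norm_add_le _ _).trans ?_
      rw [norm_one, Complex.norm_I]
      norm_num
  have hz0 : z ≠ 0 := by
    rintro rfl
    exact hzr rfl
  have hdisp : ∀ (ρ : ℝ) (k : ℕ), 0 < ρ → ‖(ρ * (z * I ^ k) : ℂ)‖ ≤ 2 * ρ := by
    intro ρ k hρ
    rw [norm_mul, norm_mul, norm_pow, Complex.norm_I, one_pow, mul_one, Complex.norm_real,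
      Real.norm_eq_abs, abs_of_pos hρ]
    nlinarith
  have hαz : ∀ (ρ : ℝ) (k : ℕ), α * (ρ * (z * I ^ k)) = ρ * (z0 b * I ^ k) := fun ρ k => by
    rw [hz]; exact mul_direction hα b k ρ
  -- the conditions on `ρ`
  have c1 : ∀ᶠ ρ : ℝ in 𝓝[>] (0 : ℝ), ∀ p ∈ K,
      Even (Finset.univ.filter fun k : Fin 4 => p + ρ * (z * I ^ (k : ℕ)) ∈ region s).card ∧
      ∀ k : Fin 4, p + ρ * (z * I ^ (k : ℕ)) ∈ region s →
        p + ρ * (z * I ^ (k : ℕ)) ∈ interior (region s) := by
    rw [Filter.eventually_all_finite hKfin]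
    intro p hp
    have hpl : ¬ ((∃ n : ℤ, p.re = n) ∧ ∃ n : ℤ, p.im = n) := by
      rintro ⟨⟨n, hn⟩, m, hm⟩
      exact hno p ((hKmem p).1 hp).1 ((hKmem p).1 hp).2 ⟨n, hn⟩ m hm
    obtain ⟨ε, hε, h⟩ := local_even s hpl hzr hzi
    filter_upwards [Ioo_mem_nhdsGT hε] with ρ hρ
    exact h ρ hρ.1 hρ.2
  have c2 : ∀ᶠ ρ : ℝ in 𝓝[>] (0 : ℝ), ∀ p ∈ K, ∀ k : Fin 4, p + ρ * (z * I ^ (k : ℕ)) ∈ region s →
      dist (f (p + ρ * (z * I ^ (k : ℕ)))) v < l / 2 := by
    rw [Filter.eventually_all_finite hKfin]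
    intro p hp
    obtain ⟨η, hη, h⟩ := Metric.continuousOn_iff.1 hf p ((hKmem p).1 hp).1 (l / 2) (by positivity)
    filter_upwards [Ioo_mem_nhdsGT (show 0 < η / 2 by positivity)] with ρ hρ k hk
    rw [← ((hKmem p).1 hp).2]
    refine h _ hk ?_
    rw [dist_eq_norm, add_sub_cancel_left]
    exact (hdisp ρ k hρ.1).trans_lt (by linarith [hρ.2])
  obtain ⟨δ, hδ, hδ'⟩ : ∃ δ > 0, ∀ q ∈ region s, dist (f q) v < δ → ∃ p ∈ K, dist q p < l / 2 := by
    have hC : IsCompact (region s \ ⋃ p ∈ K, ball p (l / 2)) :=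
      hPc.diff (isOpen_biUnion fun p _ => isOpen_ball)
    have hC' : IsCompact (f '' (region s \ ⋃ p ∈ K, ball p (l / 2))) :=
      hC.image_of_continuousOn (hf.mono sdiff_subset)
    have hvC : v ∈ (f '' (region s \ ⋃ p ∈ K, ball p (l / 2)))ᶜ := by
      rintro ⟨q, ⟨hq1, hq2⟩, hqv⟩
      apply hq2
      exact mem_iUnion₂.2 ⟨q, (hKmem q).2 ⟨hq1, hqv⟩, mem_ball_self (by positivity)⟩
    obtain ⟨δ, hδ, h⟩ := Metric.isOpen_iff.1 hC'.isClosed.isOpen_compl v hvC
    refine ⟨δ, hδ, fun q hq hqd => ?_⟩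
    by_contra hcon
    push Not at hcon
    refine h (mem_ball.2 hqd) ⟨q, ⟨hq, ?_⟩, rfl⟩
    intro hmem
    obtain ⟨p, hp, hqp⟩ := mem_iUnion₂.1 hmem
    exact absurd (mem_ball.1 hqp) (not_lt.2 (hcon p hp))
  have c3 : ∀ᶠ ρ : ℝ in 𝓝[>] (0 : ℝ), 0 < ρ ∧ ρ < l / 8 ∧ 2 * ρ < δ := by
    filter_upwards [Ioo_mem_nhdsGT (show 0 < min (l / 8) (δ / 2) by positivity)] with ρ hρ
    refine ⟨hρ.1, hρ.2.trans_le (min_le_left _ _), ?_⟩
    have := hρ.2.trans_le (min_le_right _ _)
    linarith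
  obtain ⟨ρ, ⟨h1, h2⟩, hρ, hρl, hρδ⟩ := ((c1.and c2).and c3).exists
  -- the index set
  obtain ⟨J, hJ⟩ : ∃ J : Finset (ℂ × Fin 4), J = (hKfin.toFinset ×ˢ Finset.univ).filter
    (fun x : ℂ × Fin 4 => x.1 + ρ * (z * I ^ (x.2 : ℕ)) ∈ region s) := ⟨_, rfl⟩
  have hJmem : ∀ x : ℂ × Fin 4, x ∈ J ↔ x.1 ∈ K ∧ x.1 + ρ * (z * I ^ (x.2 : ℕ)) ∈ region s := by
    intro x
    rw [hJ]
    simp
  have heven : Even J.card := by
    rw [hJ, Finset.card_filter, Finset.sum_product]
    refine Finset.even_sum _ fun p hp => ?_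
    have := (h1 p (by simpa using hp)).1
    rw [Finset.card_filter] at this
    exact this
  have hcard : J.card = 3 := by
    have hinjJ : Set.InjOn (fun x : ℂ × Fin 4 => f (x.1 + ρ * (z * I ^ (x.2 : ℕ)))) (J : Set _) := by
      rintro ⟨p, k⟩ hx ⟨p', k'⟩ hx' he
      rw [Finset.mem_coe, hJmem] at hx hx'
      simp only at hx hx' he
      have e1 := hinj ((h1 p hx.1).2 k hx.2) ((h1 p' hx'.1).2 k' hx'.2) he
      have e2 : p = p' := by
        by_contra hpp
        have d1 := hsep p hx.1 p' hx'.1 hpp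
        have d2 : p - p' = ρ * (z * I ^ (k' : ℕ)) - ρ * (z * I ^ (k : ℕ)) := by
          linear_combination e1
        rw [dist_eq_norm, d2] at d1
        have d3 := norm_sub_le (ρ * (z * I ^ (k' : ℕ)) : ℂ) (ρ * (z * I ^ (k : ℕ)))
        have d4 := hdisp ρ k hρ
        have d5 := hdisp ρ k' hρ
        linarith
      subst e2
      have e3 : (ρ : ℂ) * z * I ^ (k : ℕ) = ρ * z * I ^ (k' : ℕ) := by
        linear_combination e1
      have e4 := mul_left_cancel₀ (mul_ne_zero (by exact_mod_cast hρ.ne') hz0) e3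
      rw [I_pow_inj e4]
    have himg : J.image (fun x : ℂ × Fin 4 => f (x.1 + ρ * (z * I ^ (x.2 : ℕ)))) =
        Finset.univ.image (W v ρ b) := by
      ext w
      simp only [Finset.mem_image, hJmem, Finset.mem_univ, true_and]
      constructor
      · rintro ⟨⟨p, k⟩, ⟨hx1, hx2⟩, rfl⟩
        simp only at hx1 hx2 ⊢
        have e1 := hg _ hx2
        have e2 := grid_displacement (α := α) (β := β) hl (p := p) (d := ρ * (z * I ^ (k : ℕ)))
          (grid_at_vertex hl hg hv ((hKmem p).1 hx1).1 ((hKmem p).1 hx1).2)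
        have e3 := class_direction l ρ b k
        rw [hαz] at e2
        rw [e2.1, e2.2, e3.1, e3.2] at e1
        obtain ⟨m, hm⟩ := class_to_W hl hρ (by linarith) hv
          (by rw [← him]; exact mem_image_of_mem f hx2)
          (fun n => (abs_coord_le _ _ n).trans_lt (h2 p hx1 k hx2)) e1.1 e1.2
        exact ⟨m, hm.symm⟩
      · rintro ⟨m, rfl⟩
        have hW := W_mem hρ (by linarith) hv b m
        rw [← him] at hW
        obtain ⟨q, hq, hqW⟩ := hW
        obtain ⟨p, hp, hqp⟩ := hδ' q hq (by rw [hqW]; exact (W_dist hρ v b m).trans_lt hρδ)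
        have e1 := hg q hq
        have e2 := grid_displacement (α := α) (β := β) hl (p := p) (d := q - p)
          (grid_at_vertex hl hg hv ((hKmem p).1 hp).1 ((hKmem p).1 hp).2)
        rw [add_sub_cancel] at e2
        have e3 := W_class hl ρ hv b m
        rw [hqW, e3.1, e3.2, e2.1, e2.2] at e1
        have hn : ‖α * (q - p)‖ < l / 2 := by
          rw [norm_mul, hα, one_mul, ← dist_eq_norm]
          exact hqp
        obtain ⟨k, hk⟩ := direction_of_class hl hρ (by linarith)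
          ((Complex.abs_re_le_norm _).trans_lt hn) ((Complex.abs_im_le_norm _).trans_lt hn)
          e1.1.symm e1.2.symm
        have hα0 : α ≠ 0 := by
          rintro rfl
          rw [norm_zero] at hα
          norm_num at hα
        have e4 : q = p + ρ * (z * I ^ (k : ℕ)) := by
          have : α * (q - p) = α * (ρ * (z * I ^ (k : ℕ))) := by rw [hk, hαz]
          have := mul_left_cancel₀ hα0 this
          linear_combination this
        exact ⟨⟨p, k⟩, ⟨hp, by simpa only [← e4] using hq⟩, by simp only [← e4]; exact hqW⟩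
    rw [← Finset.card_image_of_injOn hinjJ, himg, Finset.card_image_of_injective _ (W_inj hρ v b)]
    simp
  rw [hcard] at heven
  exact absurd heven (by decide)

end Q47.Cube
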