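import Mathlib

/-!
# Polyominoes that fold to a cube: definitions
-/

open Set Metric
open scoped ENNReal

namespace Q47.Cube

/-- Euclidean three-space. -/
abbrev Space : Type := EuclideanSpace ℝ (Fin 3)

/-- The surface of the cube `[0, l] ^ 3` of edge length `l`. -/
def cubeSurface (l : ℝ) : Set Space :=
  {w | (∀ i, 0 ≤ w i ∧ w i ≤ l) ∧ ∃ i, w i = 0 ∨ w i = l}

/-- The intrinsic (path) distance of two points in the set `S`: the infimum of the lengths of the
continuous paths in `S` from `a` to `b` (it is `∞` if there is no such path of finite length). -/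
noncomputable def pathDist (S : Set Space) (a b : Space) : ℝ≥0∞ :=
  ⨅ γ ∈ {γ : ℝ → Space | ContinuousOn γ (Icc 0 1) ∧ (∀ t ∈ Icc (0 : ℝ) 1, γ t ∈ S) ∧
    γ 0 = a ∧ γ 1 = b}, eVariationOn γ (Icc 0 1)

/-- The closed unit square of the integer lattice with lower left corner `c`. The plane is `ℂ`. -/
def cell (c : ℤ × ℤ) : Set ℂ :=
  {z | (c.1 : ℝ) ≤ z.re ∧ z.re ≤ c.1 + 1 ∧ (c.2 : ℝ) ≤ z.im ∧ z.im ≤ c.2 + 1}

/-- The union of the unit squares in the finite set `s`. -/
def region (s : Finset (ℤ × ℤ)) : Set ℂ := ⋃ c ∈ s, cell c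

/-- The finite set `s` of unit squares is a polyomino: the interior of its union is connected (in
particular `s` is not empty). (We do not require that the union is simply connected.) -/
def IsPolyomino (s : Finset (ℤ × ℤ)) : Prop := IsConnected (interior (region s))

/-- The set `P` of the plane folds to the surface of a cube of edge length `l`: there is a continuous
map `f` from `P` onto the surface which is injective on the interior of `P` and which is, near every
interior point of `P`, an isometry for the intrinsic distance of the surface. -/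
def FoldsToCube (P : Set ℂ) (l : ℝ) : Prop :=
  ∃ f : ℂ → Space, ContinuousOn f P ∧ f '' P = cubeSurface l ∧ InjOn f (interior P) ∧
    ∀ p ∈ interior P, ∃ ε > 0, ∀ x ∈ ball p ε, ∀ y ∈ ball p ε,
      pathDist (cubeSurface l) (f x) (f y) = edist x y

/-- The finite set `s` of unit squares is a net of a cube (of some edge length). -/
def IsCubeNet (s : Finset (ℤ × ℤ)) : Prop := ∃ l : ℝ, 0 < l ∧ FoldsToCube (region s) l

/-- The polyomino `s` is a regular rep-cube of order `k`: it is a net of a cube, and it can be
divided into `k` polyominoes `t i` of the same area, all of which are nets of cubes. -/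
def IsRegularRepCube (s : Finset (ℤ × ℤ)) (k : ℕ) : Prop :=
  IsPolyomino s ∧ IsCubeNet s ∧ ∃ t : Fin k → Finset (ℤ × ℤ),
    (∀ i, IsPolyomino (t i) ∧ IsCubeNet (t i)) ∧ (∀ i j, i ≠ j → Disjoint (t i) (t j)) ∧
    (∀ c, c ∈ s ↔ ∃ i, c ∈ t i) ∧ ∀ i j, (t i).card = (t j).card

end Q47.Cube
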