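import Pool.Agent.Q47.Cube.Area
import Pool.Agent.Q47.Cube.Count

open Set Metric Complex

namespace Q47.Cube

/-- If the product of `x` and of a positive sum of two squares is a sum of two squares, then `x` is
a sum of two squares. -/
theorem sum_two_squares_of_mul {x m y : ℕ} (hm : 0 < m) (hxy : x * m = y)
    (h1 : ∃ a b : ℕ, m = a ^ 2 + b ^ 2) (h2 : ∃ a b : ℕ, y = a ^ 2 + b ^ 2) :
    ∃ a b : ℕ, x = a ^ 2 + b ^ 2 := by
  rcases Nat.eq_zero_or_pos x with rfl | hx
  · exact ⟨0, 0, rfl⟩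
  rw [Nat.eq_sq_add_sq_iff] at h1 h2 ⊢
  intro q hq hq4
  have hqp : q.Prime := Nat.prime_of_mem_primeFactors hq
  have : Fact q.Prime := ⟨hqp⟩
  have e1 : Even (padicValNat q m) := by
    by_cases h : q ∈ m.primeFactors
    · exact h1 q h hq4
    · have : ¬ q ∣ m := fun hd => h (Nat.mem_primeFactors.2 ⟨hqp, hd, hm.ne'⟩)
      rw [padicValNat.eq_zero_of_not_dvd this]
      exact Even.zero
  have hy : y ≠ 0 := by rw [← hxy]; positivity
  have e2 : Even (padicValNat q y) := by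
    refine h2 q (Nat.mem_primeFactors.2 ⟨hqp, ?_, hy⟩) hq4
    rw [← hxy]
    exact (Nat.dvd_of_mem_primeFactors hq).mul_right m
  rw [← hxy, padicValNat.mul hx.ne' hm.ne', Nat.even_add] at e2
  exact e2.2 e1

/-- The area of a polyomino which is a net of a cube. -/
theorem net_area {s : Finset (ℤ × ℤ)} (hs : IsPolyomino s) (hn : IsCubeNet s) :
    ∃ a b : ℕ, 6 * s.card = a ^ 2 + b ^ 2 := by
  obtain ⟨l, hl, f, hf, him, hinj, hiso⟩ := hn
  obtain ⟨α, β, hα, hg⟩ := global_grid hf him hinj hiso hs (region_subset_closure s)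
  have harea := area hl hα him hinj hiso hg
  have hv0 : (0 : Space) ∈ Vert l := fun i => Or.inl rfl
  have hv1 : (WithLp.toLp 2 fun _ => l : Space) ∈ Vert l := fun i => Or.inr rfl
  obtain ⟨p, hp, hpv, ⟨p1, hp1⟩, p2, hp2⟩ := vertex_lattice hl hf him hinj hα hg hv0
  obtain ⟨q, hq, hqv, ⟨q1, hq1⟩, q2, hq2⟩ := vertex_lattice hl hf him hinj hα hg hv1
  obtain ⟨a, b, ha, hb⟩ := grid_at_vertex hl hg hv0 hp hpv
  obtain ⟨c, d, hc, hd⟩ := grid_at_vertex hl hg hv1 hq hqv
  have hpq : p ≠ q := by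
    rintro rfl
    rw [hpv] at hqv
    have := congrArg (fun w : Space => w 0) hqv
    simp at this
    exact hl.ne this
  -- the square of the distance
  have h1 : α * (p - q) = (α * p + β) - (α * q + β) := by ring
  have h2 : (α * (p - q)).re = (a - c) * l := by rw [h1, Complex.sub_re, ha, hc]; ring
  have h3 : (α * (p - q)).im = (b - d) * l := by rw [h1, Complex.sub_im, hb, hd]; ring
  have h4 : ‖p - q‖ = ‖α * (p - q)‖ := by rw [norm_mul, hα, one_mul]
  have h5 : ‖p - q‖ ^ 2 = ((a - c) ^ 2 + (b - d) ^ 2) * l ^ 2 := by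
    rw [h4, Complex.sq_norm, Complex.normSq_apply, h2, h3]
    ring
  have h6 : ‖p - q‖ ^ 2 = ((p1 : ℝ) - q1) ^ 2 + (p2 - q2) ^ 2 := by
    rw [Complex.sq_norm, Complex.normSq_apply, Complex.sub_re, Complex.sub_im, hp1, hp2, hq1, hq2]
    ring
  obtain ⟨m, hm⟩ : ∃ m : ℕ, m = (a - c).natAbs ^ 2 + (b - d).natAbs ^ 2 := ⟨_, rfl⟩
  obtain ⟨n, hn⟩ : ∃ n : ℕ, n = (6 * (p1 - q1)).natAbs ^ 2 + (6 * (p2 - q2)).natAbs ^ 2 :=
    ⟨_, rfl⟩
  have hmR : (m : ℝ) = (a - c) ^ 2 + (b - d) ^ 2 := by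
    rw [hm]
    push_cast
    rw [Nat.cast_natAbs, Nat.cast_natAbs]
    push_cast
    rw [sq_abs, sq_abs]
  have hnR : (n : ℝ) = 36 * (((p1 : ℝ) - q1) ^ 2 + (p2 - q2) ^ 2) := by
    rw [hn]
    push_cast
    rw [Nat.cast_natAbs, Nat.cast_natAbs]
    push_cast
    rw [sq_abs, sq_abs]
    ring
  have hm0 : 0 < m := by
    rcases Nat.eq_zero_or_pos m with h | h
    · rw [h, Nat.cast_zero] at hmR
      rw [← hmR, zero_mul] at h5
      have : ‖p - q‖ = 0 := pow_eq_zero_iff (two_ne_zero) |>.1 h5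
      exact absurd (sub_eq_zero.1 (norm_eq_zero.1 this)) hpq
    · exact h
  have key : 6 * s.card * m = n := by
    have : ((6 * s.card * m : ℕ) : ℝ) = n := by
      push_cast
      rw [harea, hnR, ← h6, h5, hmR]
      ring
    exact_mod_cast this
  exact sum_two_squares_of_mul hm0 key ⟨_, _, hm⟩ ⟨_, _, hn⟩

/-- The order of a regular rep-cube is a sum of two squares. -/
theorem rep_cube {s : Finset (ℤ × ℤ)} {k : ℕ} (h : IsRegularRepCube s k) :
    ∃ a b : ℕ, k = a ^ 2 + b ^ 2 := by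
  classical
  obtain ⟨hs, hn, t, ht, hdis, hun, hcard⟩ := h
  rcases Nat.eq_zero_or_pos k with rfl | hk
  · exact ⟨0, 0, rfl⟩
  have hs' : s = Finset.univ.biUnion t := by
    ext c
    rw [hun c]
    simp
  have hc : s.card = k * (t ⟨0, hk⟩).card := by
    rw [hs', Finset.card_biUnion fun i _ j _ hij => hdis i j hij,
      Finset.sum_congr rfl fun i _ => hcard i ⟨0, hk⟩]
    simp
  have hpos : 0 < (t ⟨0, hk⟩).card := by
    rw [Finset.card_pos]
    by_contra hne
    rw [Finset.not_nonempty_iff_eq_empty] at hne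
    have := (ht ⟨0, hk⟩).1
    rw [hne, IsPolyomino, region] at this
    simpa using this.nonempty
  refine sum_two_squares_of_mul (m := 6 * (t ⟨0, hk⟩).card) (by positivity) ?_
    (net_area (ht _).1 (ht _).2) (net_area hs hn)
  rw [hc]
  ring

end Q47.Cube
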