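import Pool.Agent.Q47.Cube.Local

open Set Metric Complex Filter Topology
open scoped ENNReal NNReal ComplexConjugate

namespace Q47.Cube

theorem analytic_cs (l : ℝ) : AnalyticOnNhd ℝ (cs l) univ := by
  intro t _
  have h : AnalyticAt ℝ (fun t : ℝ => 2 * Real.pi * t / l) t := by
    have : (fun t : ℝ => 2 * Real.pi * t / l) = fun t => (2 * Real.pi / l) * t := by
      ext t; ring
    rw [this]
    exact analyticAt_const.mul analyticAt_id
  exact Real.analyticAt_cos.comp h

theorem analytic_re (α β : ℂ) : AnalyticOnNhd ℝ (fun y : ℂ => (α * y + β).re) univ := by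
  intro y _
  have h : AnalyticAt ℝ (fun y : ℂ => α * y + β) y :=
    (analyticAt_const.mul analyticAt_id).add analyticAt_const
  exact (Complex.reCLM.analyticAt _).comp h

theorem analytic_im (α β : ℂ) : AnalyticOnNhd ℝ (fun y : ℂ => (α * y + β).im) univ := by
  intro y _
  have h : AnalyticAt ℝ (fun y : ℂ => α * y + β) y :=
    (analyticAt_const.mul analyticAt_id).add analyticAt_const
  exact (Complex.imCLM.analyticAt _).comp h

theorem analytic_G1 (l : ℝ) (α β : ℂ) : AnalyticOnNhd ℝ (G1 l α β) univ := by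
  intro y _
  exact (AnalyticAt.comp (g := cs l) (f := fun y : ℂ => (α * y + β).re)
    (analytic_cs l _ (mem_univ _)) (analytic_re α β y (mem_univ _))).add
    (AnalyticAt.comp (g := cs l) (f := fun y : ℂ => (α * y + β).im)
    (analytic_cs l _ (mem_univ _)) (analytic_im α β y (mem_univ _)))

theorem analytic_G2 (l : ℝ) (α β : ℂ) : AnalyticOnNhd ℝ (G2 l α β) univ := by
  intro y _
  exact (AnalyticAt.comp (g := cs l) (f := fun y : ℂ => (α * y + β).re)
    (analytic_cs l _ (mem_univ _)) (analytic_re α β y (mem_univ _))).mul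
    (AnalyticAt.comp (g := cs l) (f := fun y : ℂ => (α * y + β).im)
    (analytic_cs l _ (mem_univ _)) (analytic_im α β y (mem_univ _)))

theorem continuous_cs (l : ℝ) : Continuous (cs l) := by
  unfold cs
  fun_prop

theorem continuous_G1 (l : ℝ) (α β : ℂ) : Continuous (G1 l α β) := by
  have := continuous_cs l
  unfold G1
  exact (this.comp (Complex.continuous_re.comp (by fun_prop))).add
    (this.comp (Complex.continuous_im.comp (by fun_prop)))

theorem continuous_G2 (l : ℝ) (α β : ℂ) : Continuous (G2 l α β) := by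
  have := continuous_cs l
  unfold G2
  exact (this.comp (Complex.continuous_re.comp (by fun_prop))).mul
    (this.comp (Complex.continuous_im.comp (by fun_prop)))

theorem continuous_coord (m : Fin 3) : Continuous (fun w : Space => w m) :=
  continuous_apply m |>.comp (PiLp.continuous_ofLp 2 _)

theorem continuous_F1 (l : ℝ) : Continuous (F1 l) := by
  have := continuous_cs l
  unfold F1
  exact (((this.comp (continuous_coord 0)).add (this.comp (continuous_coord 1))).add
    (this.comp (continuous_coord 2))).sub continuous_const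

theorem continuous_F2 (l : ℝ) : Continuous (F2 l) := by
  have := continuous_cs l
  unfold F2
  exact ((this.comp (continuous_coord 0)).mul (this.comp (continuous_coord 1))).mul
    (this.comp (continuous_coord 2))

/-- A punctured disc is preconnected. -/
theorem isPreconnected_punctured (x : ℂ) (r : ℝ) : IsPreconnected (ball x r \ {x}) := by
  have h : ball x r \ {x} = (fun p : ℂ × ℝ => x + p.2 * p.1) '' (sphere (0 : ℂ) 1 ×ˢ Ioo 0 r) := by
    ext y
    simp only [Set.mem_sdiff, mem_ball, mem_singleton_iff, mem_image, mem_prod, mem_sphere_iff_norm,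
      sub_zero, mem_Ioo, Prod.exists]
    constructor
    · rintro ⟨h1, h2⟩
      have h3 : (0 : ℝ) < ‖y - x‖ := norm_pos_iff.2 (sub_ne_zero.2 h2)
      refine ⟨(y - x) / (‖y - x‖ : ℂ), ‖y - x‖, ⟨?_, h3, by rwa [← dist_eq_norm]⟩, ?_⟩
      · rw [norm_div, Complex.norm_real, norm_norm, div_self h3.ne']
      · have : ((‖y - x‖ : ℝ) : ℂ) ≠ 0 := by exact_mod_cast h3.ne'
        field_simp
        ring
    · rintro ⟨a, b, ⟨h1, h2, h3⟩, rfl⟩
      constructor
      · rw [dist_eq_norm, add_sub_cancel_left, norm_mul, h1, Complex.norm_real, mul_one,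
          Real.norm_eq_abs, abs_of_pos h2]
        exact h3
      · intro h4
        have h5 : (b : ℂ) * a = 0 := by linear_combination h4
        rcases mul_eq_zero.1 h5 with h6 | h6
        · exact h2.ne' (by exact_mod_cast h6)
        · rw [h6, norm_zero] at h1
          norm_num at h1
  rw [h]
  refine IsPreconnected.image ?_ _ (by fun_prop)
  refine IsPreconnected.prod ?_ isPreconnected_Ioo
  refine isPreconnected_sphere ?_ _ _
  rw [Complex.rank_real_complex]
  norm_num

/-- The vertices of the cube. -/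
def Vert (l : ℝ) : Set Space := {w | ∀ i, w i = 0 ∨ w i = l}

theorem finite_Vert (l : ℝ) : (Vert l).Finite := by
  have h : Vert l ⊆ range (fun b : Fin 3 → Bool =>
      (WithLp.toLp 2 fun i => if b i then l else 0 : Space)) := by
    classical
    intro w hw
    refine ⟨fun i => decide (w i = l), ?_⟩
    ext i
    simp only [decide_eq_true_eq]
    split_ifs with h
    · exact h.symm
    · rcases hw i with h1 | h1
      · exact h1.symm
      · exact absurd h1 h
  exact (finite_range _).subset h

section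

variable {l : ℝ} {P : Set ℂ} {f : ℂ → Space}

theorem local_data (him : f '' P = cubeSurface l) (hiso : ∀ p ∈ interior P, ∃ ε > 0,
    ∀ x ∈ ball p ε, ∀ y ∈ ball p ε, pathDist (cubeSurface l) (f x) (f y) = edist x y)
    {p : ℂ} (hp : p ∈ interior P) : ∃ ε > 0, ball p ε ⊆ interior P ∧
      (∀ x ∈ ball p ε, ∀ y ∈ ball p ε, pathDist (cubeSurface l) (f x) (f y) = edist x y) ∧
      ∀ y ∈ ball p ε, f y ∈ cubeSurface l := by
  obtain ⟨ε, hε, h⟩ := hiso p hp
  obtain ⟨r, hr, hr'⟩ := Metric.isOpen_iff.1 isOpen_interior p hp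
  refine ⟨min ε r, lt_min hε hr, ?_, ?_, ?_⟩
  · exact (ball_subset_ball (min_le_right _ _)).trans hr'
  · intro x hx y hy
    exact h x (ball_subset_ball (min_le_left _ _) hx) y (ball_subset_ball (min_le_left _ _) hy)
  · intro y hy
    rw [← him]
    exact mem_image_of_mem f (interior_subset (hr' (ball_subset_ball (min_le_right _ _) hy)))

theorem global_grid (hf : ContinuousOn f P) (him : f '' P = cubeSurface l)
    (hinj : InjOn f (interior P)) (hiso : ∀ p ∈ interior P, ∃ ε > 0,
    ∀ x ∈ ball p ε, ∀ y ∈ ball p ε, pathDist (cubeSurface l) (f x) (f y) = edist x y)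
    (hconn : IsConnected (interior P)) (hcl : P ⊆ closure (interior P)) :
    ∃ α β : ℂ, ‖α‖ = 1 ∧ ∀ y ∈ P, F1 l (f y) = G1 l α β y ∧ F2 l (f y) = G2 l α β y := by
  have hV : (interior P ∩ f ⁻¹' (Vert l)).Finite :=
    Set.Finite.of_finite_image ((finite_Vert l).subset (by
      rintro _ ⟨y, hy, rfl⟩
      exact hy.2)) (hinj.mono inter_subset_left)
  have hloc : ∀ p ∈ interior P, f p ∉ Vert l → ∃ α β : ℂ, ‖α‖ = 1 ∧ ∃ δ > 0, ∀ y ∈ ball p δ,
      F1 l (f y) = G1 l α β y ∧ F2 l (f y) = G2 l α β y := by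
    intro p hp hpv
    obtain ⟨ε, hε, h1, h2, h3⟩ := local_data him hiso hp
    refine local_struct hε h2 h3 ?_
    simp only [Vert, mem_ofPred_eq, not_forall, not_or] at hpv
    exact hpv
  -- a starting point
  obtain ⟨x0, hx0⟩ : (interior P ∩ (interior P ∩ f ⁻¹' (Vert l))ᶜ).Nonempty := by
    have hd := hV.countable.dense_compl ℝ
    exact hd.inter_open_nonempty _ isOpen_interior hconn.nonempty
  have hx0v : f x0 ∉ Vert l := fun h => hx0.2 ⟨hx0.1, h⟩
  obtain ⟨α, β, hα, δ0, hδ0, h0⟩ := hloc x0 hx0.1 hx0v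
  refine ⟨α, β, hα, ?_⟩
  set u : Set ℂ := {x | ∀ᶠ y in 𝓝 x, F1 l (f y) = G1 l α β y ∧ F2 l (f y) = G2 l α β y} with hu
  have huo : IsOpen u := isOpen_setOfPred_eventually_nhds
  have hx0u : x0 ∈ u := by
    rw [hu, mem_ofPred_eq, Metric.eventually_nhds_iff_ball]
    exact ⟨δ0, hδ0, h0⟩
  have step1 : ∀ x ∈ closure u, x ∈ interior P → f x ∉ Vert l → x ∈ u := by
    intro x hxu hxP hxv
    obtain ⟨α', β', -, δ, hδ, h1⟩ := hloc x hxP hxv
    obtain ⟨z, hz1, hz2⟩ := mem_closure_iff.1 hxu (ball x δ) isOpen_ball (mem_ball_self hδ)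
    have e1 : G1 l α β =ᶠ[𝓝 z] G1 l α' β' := by
      filter_upwards [hz2, isOpen_ball.mem_nhds hz1] with y hy1 hy2
      rw [← hy1.1, (h1 y hy2).1]
    have e2 : G2 l α β =ᶠ[𝓝 z] G2 l α' β' := by
      filter_upwards [hz2, isOpen_ball.mem_nhds hz1] with y hy1 hy2
      rw [← hy1.2, (h1 y hy2).2]
    have g1 := AnalyticOnNhd.eq_of_eventuallyEq (analytic_G1 l α β) (analytic_G1 l α' β') e1
    have g2 := AnalyticOnNhd.eq_of_eventuallyEq (analytic_G2 l α β) (analytic_G2 l α' β') e2
    rw [hu, mem_ofPred_eq, Metric.eventually_nhds_iff_ball]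
    refine ⟨δ, hδ, fun y hy => ?_⟩
    rw [g1, g2]
    exact h1 y hy
  have step2 : closure u ∩ interior P ⊆ u := by
    rintro x ⟨hxu, hxP⟩
    by_cases hxv : f x ∈ Vert l
    · -- remove the point `x`
      have hfin : ((interior P ∩ f ⁻¹' (Vert l)) \ {x}).Finite := hV.subset sdiff_subset
      have hop : IsOpen (interior P ∩ ((interior P ∩ f ⁻¹' (Vert l)) \ {x})ᶜ) :=
        isOpen_interior.inter hfin.isClosed.isOpen_compl
      obtain ⟨r, hr, hr'⟩ := Metric.isOpen_iff.1 hop x ⟨hxP, fun h => h.2 rfl⟩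
      have hsub : ball x r \ {x} ⊆ u := by
        refine (isPreconnected_punctured x r).subset_of_closure_inter_subset huo ?_ ?_
        · obtain ⟨z, hz1, hz2⟩ := mem_closure_iff.1 hxu (ball x r) isOpen_ball (mem_ball_self hr)
          obtain ⟨w, hw1, hw2⟩ := (dense_compl_singleton x).inter_open_nonempty (u ∩ ball x r)
            (huo.inter isOpen_ball) ⟨z, hz2, hz1⟩
          exact ⟨w, ⟨hw1.2, hw2⟩, hw1.1⟩
        · rintro y ⟨hy1, hy2, hy3⟩
          have := hr' hy2
          exact step1 y hy1 this.1 (fun h => this.2 ⟨⟨this.1, h⟩, hy3⟩)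
      have hball : ∀ y ∈ ball x r, y ≠ x → F1 l (f y) = G1 l α β y ∧ F2 l (f y) = G2 l α β y := by
        intro y hy hyx
        exact (hsub ⟨hy, hyx⟩ : ∀ᶠ y in 𝓝 y, _).self_of_nhds
      have hfx : ContinuousAt f x := hf.continuousAt (mem_interior_iff_mem_nhds.1 hxP)
      have hne : (𝓝[≠] x).NeBot := inferInstance
      have hev : ∀ᶠ y in 𝓝[≠] x, F1 l (f y) = G1 l α β y ∧ F2 l (f y) = G2 l α β y := by
        rw [eventually_nhdsWithin_iff]
        filter_upwards [ball_mem_nhds x hr] with y hy hyx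
        exact hball y hy hyx
      have c1 : F1 l (f x) = G1 l α β x := by
        have t1 : Tendsto (fun y => F1 l (f y)) (𝓝[≠] x) (𝓝 (F1 l (f x))) :=
          ((continuous_F1 l).continuousAt.comp hfx).tendsto.mono_left nhdsWithin_le_nhds
        have t2 : Tendsto (G1 l α β) (𝓝[≠] x) (𝓝 (G1 l α β x)) :=
          (continuous_G1 l α β).continuousAt.tendsto.mono_left nhdsWithin_le_nhds
        exact tendsto_nhds_unique (t1.congr' (hev.mono fun y hy => hy.1)) t2
      have c2 : F2 l (f x) = G2 l α β x := by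
        have t1 : Tendsto (fun y => F2 l (f y)) (𝓝[≠] x) (𝓝 (F2 l (f x))) :=
          ((continuous_F2 l).continuousAt.comp hfx).tendsto.mono_left nhdsWithin_le_nhds
        have t2 : Tendsto (G2 l α β) (𝓝[≠] x) (𝓝 (G2 l α β x)) :=
          (continuous_G2 l α β).continuousAt.tendsto.mono_left nhdsWithin_le_nhds
        exact tendsto_nhds_unique (t1.congr' (hev.mono fun y hy => hy.2)) t2
      rw [hu, mem_ofPred_eq, Metric.eventually_nhds_iff_ball]
      refine ⟨r, hr, fun y hy => ?_⟩
      by_cases hyx : y = x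
      · rw [hyx]; exact ⟨c1, c2⟩
      · exact hball y hy hyx
    · exact step1 x hxu hxP hxv
  have hsub : interior P ⊆ u := hconn.isPreconnected.subset_of_closure_inter_subset huo
    ⟨x0, hx0.1, hx0u⟩ step2
  have hint : ∀ y ∈ interior P, F1 l (f y) = G1 l α β y ∧ F2 l (f y) = G2 l α β y := fun y hy =>
    (hsub hy : ∀ᶠ y in 𝓝 y, _).self_of_nhds
  intro y hy
  constructor
  · exact Set.EqOn.of_subset_closure (f := fun y => F1 l (f y)) (g := G1 l α β)
      (fun z hz => (hint z hz).1) ((continuous_F1 l).comp_continuousOn hf)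
      (continuous_G1 l α β).continuousOn interior_subset hcl hy
  · exact Set.EqOn.of_subset_closure (f := fun y => F2 l (f y)) (g := G2 l α β)
      (fun z hz => (hint z hz).2) ((continuous_F2 l).comp_continuousOn hf)
      (continuous_G2 l α β).continuousOn interior_subset hcl hy

end

end Q47.Cube
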