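import Pool.Agent.Q47.Cube.Defs

open Set Metric
open scoped ENNReal NNReal

namespace Q47.Cube

theorem edist_le_pathDist (S : Set Space) (a b : Space) : edist a b ≤ pathDist S a b := by
  unfold pathDist
  refine le_iInf₂ fun γ hγ => ?_
  obtain ⟨-, -, h0, h1⟩ := hγ
  rw [← h0, ← h1]
  exact eVariationOn.edist_le γ (by simp) (by simp)

theorem eVar_lineMap (a b : Space) (c d p q : ℝ) (hcd : c ≤ d) (hp : 0 ≤ p)
    (hpd : p * (d - c) = 1) :
    eVariationOn (fun t : ℝ => AffineMap.lineMap a b (p * t + q)) (Icc c d) ≤ edist a b := by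
  have hL : LipschitzOnWith (nndist a b) (fun t : ℝ => AffineMap.lineMap a b t) (univ : Set ℝ) := by
    refine LipschitzOnWith.of_dist_le_mul fun x _ y _ => ?_
    simp [dist_lineMap_lineMap, mul_comm]
  have hmono : MonotoneOn (fun t : ℝ => p * t + q) (Icc c d) := by
    intro x _ y _ hxy
    have := mul_le_mul_of_nonneg_left hxy hp
    simpa using this
  have h1 := hL.comp_eVariationOn_le (g := fun t : ℝ => p * t + q) (s := Icc c d)
    (fun _ _ => mem_univ _)
  refine h1.trans ?_
  have h2 : eVariationOn (fun t : ℝ => p * t + q) (Icc c d) ≤ ENNReal.ofReal 1 := by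
    have := MonotoneOn.eVariationOn_eq hmono (a := c) (b := d) (left_mem_Icc.2 hcd)
      (right_mem_Icc.2 hcd)
    rw [inter_eq_left.2 (le_refl _)] at this
    refine this.le.trans (ENNReal.ofReal_le_ofReal ?_)
    have : p * d + q - (p * c + q) = p * (d - c) := by ring
    rw [this, hpd]
  calc (nndist a b : ℝ≥0∞) * eVariationOn (fun t : ℝ => p * t + q) (Icc c d)
      ≤ (nndist a b : ℝ≥0∞) * ENNReal.ofReal 1 := by gcongr
    _ = edist a b := by rw [ENNReal.ofReal_one, mul_one, edist_nndist]

theorem pathDist_le_two {S : Set Space} {a q b : Space} (h1 : segment ℝ a q ⊆ S)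
    (h2 : segment ℝ q b ⊆ S) : pathDist S a b ≤ edist a q + edist q b := by
  classical
  let γ : ℝ → Space := fun t => if t ≤ 1 / 2 then AffineMap.lineMap a q (2 * t + 0)
    else AffineMap.lineMap q b (2 * t + (-1))
  have e1 : EqOn γ (fun t => AffineMap.lineMap a q (2 * t + 0)) (Icc 0 (1 / 2)) := by
    intro t ht
    simp only [γ]
    rw [if_pos ht.2]
  have e2 : EqOn γ (fun t => AffineMap.lineMap q b (2 * t + (-1))) (Icc (1 / 2) 1) := by
    intro t ht
    simp only [γ]
    split_ifs with h
    · have : t = 1 / 2 := le_antisymm h ht.1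
      subst this
      norm_num
    · rfl
  have hc : ContinuousOn γ (Icc 0 1) := by
    refine Continuous.continuousOn ?_
    refine Continuous.if_le ?_ ?_ continuous_id continuous_const ?_
    · exact (AffineMap.lineMap_continuous).comp (by fun_prop)
    · exact (AffineMap.lineMap_continuous).comp (by fun_prop)
    · intro t ht
      have : t = 1 / 2 := ht
      subst this
      norm_num
  have hS : ∀ t ∈ Icc (0 : ℝ) 1, γ t ∈ S := by
    intro t ht
    by_cases h : t ≤ 1 / 2
    · rw [e1 ⟨ht.1, h⟩]
      refine h1 ?_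
      rw [segment_eq_image_lineMap]
      exact ⟨2 * t + 0, ⟨by linarith [ht.1], by linarith⟩, rfl⟩
    · rw [e2 ⟨by linarith, ht.2⟩]
      refine h2 ?_
      rw [segment_eq_image_lineMap]
      exact ⟨2 * t + (-1), ⟨by linarith, by linarith [ht.2]⟩, rfl⟩
  have h0 : γ 0 = a := by simp [γ]
  have h1' : γ 1 = b := by
    have : ¬ (1 : ℝ) ≤ 1 / 2 := by norm_num
    simp only [γ]
    rw [if_neg this]
    norm_num
  refine (iInf₂_le γ ⟨hc, hS, h0, h1'⟩).trans ?_
  have hadd := eVariationOn.Icc_add_Icc γ (s := univ) (a := 0) (b := 1 / 2) (c := 1)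
    (by norm_num) (by norm_num) (mem_univ _)
  simp only [univ_inter] at hadd
  rw [← hadd, eVariationOn.eq_of_eqOn e1, eVariationOn.eq_of_eqOn e2]
  exact add_le_add (eVar_lineMap a q 0 (1 / 2) 2 0 (by norm_num) (by norm_num) (by norm_num))
    (eVar_lineMap q b (1 / 2) 1 2 (-1) (by norm_num) (by norm_num) (by norm_num))

theorem pathDist_eq_of_segment {S : Set Space} {a b : Space} (h : segment ℝ a b ⊆ S) :
    pathDist S a b = edist a b := by
  refine le_antisymm ?_ (edist_le_pathDist S a b)
  have hb : segment ℝ b b ⊆ S := by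
    rw [segment_same]
    exact singleton_subset_iff.2 (h (right_mem_segment ℝ a b))
  simpa using pathDist_le_two h hb

end Q47.Cube
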