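import Mathlib

open Set Metric Complex
open scoped ENNReal NNReal ComplexConjugate

namespace Q47.Cube

theorem sq_dist_re_im (a b : ℂ) : dist a b ^ 2 = (a.re - b.re) ^ 2 + (a.im - b.im) ^ 2 := by
  rw [Complex.dist_eq_re_im, Real.sq_sqrt (by positivity)]

theorem inner_of_dist {T : ℂ → ℂ} {x y z : ℂ} (h1 : dist (T y) (T x) = dist y x)
    (h2 : dist (T z) (T x) = dist z x) (h3 : dist (T y) (T z) = dist y z) :
    ((T y).re - (T x).re) * ((T z).re - (T x).re) + ((T y).im - (T x).im) * ((T z).im - (T x).im) =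
      (y.re - x.re) * (z.re - x.re) + (y.im - x.im) * (z.im - x.im) := by
  have e1 := sq_dist_re_im (T y) (T x)
  have e2 := sq_dist_re_im (T z) (T x)
  have e3 := sq_dist_re_im (T y) (T z)
  rw [h1, sq_dist_re_im] at e1
  rw [h2, sq_dist_re_im] at e2
  rw [h3, sq_dist_re_im] at e3
  nlinarith [e1, e2, e3]

theorem ortho {a1 a2 b1 b2 : ℝ} (n1 : a1 ^ 2 + a2 ^ 2 = 1) (n2 : b1 ^ 2 + b2 ^ 2 = 1)
    (n3 : a1 * b1 + a2 * b2 = 0) :
    (b1 = -a2 ∧ b2 = a1) ∨ (b1 = a2 ∧ b2 = -a1) := by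
  have hs : (a1 * b2 - a2 * b1) ^ 2 = 1 := by
    linear_combination n1 * (b1 ^ 2 + b2 ^ 2) + n2 - (a1 * b1 + a2 * b2) * n3
  have c1 : b1 = -a2 * (a1 * b2 - a2 * b1) := by linear_combination (-b1) * n1 + a1 * n3
  have c2 : b2 = a1 * (a1 * b2 - a2 * b1) := by linear_combination (-b2) * n1 + a2 * n3
  rcases sq_eq_one_iff.1 hs with h | h
  · rw [h] at c1 c2
    left
    constructor <;> linarith
  · rw [h] at c1 c2
    right
    constructor <;> linarith

/-- A distance preserving map of a disc of the plane to the plane is given by a rotation or a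
reflection. -/
theorem planar {T : ℂ → ℂ} {x : ℂ} {r : ℝ} (hr : 0 < r)
    (hT : ∀ y ∈ ball x r, ∀ z ∈ ball x r, dist (T y) (T z) = dist y z) :
    ∃ α : ℂ, ‖α‖ = 1 ∧ ((∀ y ∈ ball x r, T y = T x + α * (y - x)) ∨
      (∀ y ∈ ball x r, T y = T x + α * conj (y - x))) := by
  have hx : x ∈ ball x r := mem_ball_self hr
  obtain ⟨δ, hδ⟩ : ∃ δ : ℝ, δ = r / 2 := ⟨_, rfl⟩
  have hδ0 : 0 < δ := by rw [hδ]; positivity
  have h1 : x + (δ : ℂ) ∈ ball x r := by
    rw [mem_ball, dist_eq_norm]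
    simp only [add_sub_cancel_left, Complex.norm_real, Real.norm_eq_abs, abs_of_pos hδ0]
    linarith
  have h2 : x + (δ : ℂ) * I ∈ ball x r := by
    rw [mem_ball, dist_eq_norm]
    simp only [add_sub_cancel_left, norm_mul, Complex.norm_real, Real.norm_eq_abs, abs_of_pos hδ0,
      Complex.norm_I, mul_one]
    linarith
  have key : ∀ y ∈ ball x r, ∀ z ∈ ball x r,
      ((T y).re - (T x).re) * ((T z).re - (T x).re) +
        ((T y).im - (T x).im) * ((T z).im - (T x).im) =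
      (y.re - x.re) * (z.re - x.re) + (y.im - x.im) * (z.im - x.im) := fun y hy z hz =>
    inner_of_dist (hT y hy x hx) (hT z hz x hx) (hT y hy z hz)
  obtain ⟨a1, A1⟩ : ∃ a1, ((T (x + δ)).re - (T x).re) = δ * a1 :=
    ⟨((T (x + δ)).re - (T x).re) / δ, by field_simp⟩
  obtain ⟨a2, A2⟩ : ∃ a1, ((T (x + δ)).im - (T x).im) = δ * a1 :=
    ⟨((T (x + δ)).im - (T x).im) / δ, by field_simp⟩
  obtain ⟨b1, B1⟩ : ∃ a1, ((T (x + δ * I)).re - (T x).re) = δ * a1 :=
    ⟨((T (x + δ * I)).re - (T x).re) / δ, by field_simp⟩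
  obtain ⟨b2, B2⟩ : ∃ a1, ((T (x + δ * I)).im - (T x).im) = δ * a1 :=
    ⟨((T (x + δ * I)).im - (T x).im) / δ, by field_simp⟩
  have k11 := key _ h1 _ h1
  have k12 := key _ h1 _ h2
  have k22 := key _ h2 _ h2
  rw [A1, A2] at k11
  rw [A1, A2, B1, B2] at k12
  rw [B1, B2] at k22
  simp at k11 k12 k22
  have hδ2 : δ * δ ≠ 0 := by positivity
  have n1 : a1 ^ 2 + a2 ^ 2 = 1 := by
    have : δ * δ * (a1 ^ 2 + a2 ^ 2) = δ * δ * 1 := by linear_combination k11
    exact mul_left_cancel₀ hδ2 this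
  have n2 : b1 ^ 2 + b2 ^ 2 = 1 := by
    have : δ * δ * (b1 ^ 2 + b2 ^ 2) = δ * δ * 1 := by linear_combination k22
    exact mul_left_cancel₀ hδ2 this
  have n3 : a1 * b1 + a2 * b2 = 0 := by
    have : δ * δ * (a1 * b1 + a2 * b2) = δ * δ * 0 := by linear_combination k12
    exact mul_left_cancel₀ hδ2 this
  have hform : ∀ y ∈ ball x r,
      ((T y).re - (T x).re) * a1 + ((T y).im - (T x).im) * a2 = y.re - x.re ∧
      ((T y).re - (T x).re) * b1 + ((T y).im - (T x).im) * b2 = y.im - x.im := by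
    intro y hy
    have e1 := key y hy _ h1
    have e2 := key y hy _ h2
    rw [A1, A2] at e1
    rw [B1, B2] at e2
    simp at e1 e2
    exact ⟨mul_left_cancel₀ hδ0.ne' (by linear_combination e1),
      mul_left_cancel₀ hδ0.ne' (by linear_combination e2)⟩
  refine ⟨⟨a1, a2⟩, ?_, ?_⟩
  · rw [Complex.norm_eq_sqrt_sq_add_sq, n1, Real.sqrt_one]
  rcases ortho n1 n2 n3 with ⟨h, h'⟩ | ⟨h, h'⟩
  · left
    intro y hy
    obtain ⟨e1, e2⟩ := hform y hy
    rw [h, h'] at e2
    apply Complex.ext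
    · simp
      rw [← e1, ← e2]
      linear_combination (-((T y).re - (T x).re)) * n1
    · simp
      rw [← e1, ← e2]
      linear_combination (-((T y).im - (T x).im)) * n1
  · right
    intro y hy
    obtain ⟨e1, e2⟩ := hform y hy
    rw [h, h'] at e2
    apply Complex.ext
    · simp
      linear_combination (-((T y).re - (T x).re)) * n1 + a1 * e1 + a2 * e2
    · simp
      linear_combination (-((T y).im - (T x).im)) * n1 + a2 * e1 - a1 * e2

end Q47.Cube
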