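import Pool.Agent.Q47.Cube.Intrinsic
import Pool.Agent.Q47.Cube.Planar

open Set Metric Complex
open scoped ENNReal NNReal ComplexConjugate

namespace Q47.Cube

/-- The even periodic function `cos (2 π t / l)`. -/
noncomputable def cs (l t : ℝ) : ℝ := Real.cos (2 * Real.pi * t / l)

theorem cs_zero (l : ℝ) : cs l 0 = 1 := by simp [cs]

theorem cs_self {l : ℝ} (hl : l ≠ 0) : cs l l = 1 := by
  unfold cs
  rw [mul_div_assoc, div_self hl, mul_one, Real.cos_two_pi]

theorem cs_neg (l t : ℝ) : cs l (-t) = cs l t := by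
  unfold cs
  rw [show 2 * Real.pi * -t / l = -(2 * Real.pi * t / l) by ring, Real.cos_neg]

theorem cs_abs (l t : ℝ) : cs l |t| = cs l t := by
  rcases abs_choice t with h | h <;> rw [h]
  exact cs_neg l t

theorem cs_sub_self {l : ℝ} (hl : l ≠ 0) (t : ℝ) : cs l (t - l) = cs l t := by
  unfold cs
  rw [show 2 * Real.pi * (t - l) / l = 2 * Real.pi * t / l - 2 * Real.pi by field_simp,
    Real.cos_sub_two_pi]

theorem cs_sub_end {l e : ℝ} (hl : l ≠ 0) (he : e = 0 ∨ e = l) (t : ℝ) :
    cs l (t - e) = cs l t := by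
  rcases he with rfl | rfl
  · rw [sub_zero]
  · exact cs_sub_self hl t

theorem cs_end {l e : ℝ} (hl : l ≠ 0) (he : e = 0 ∨ e = l) : cs l e = 1 := by
  rcases he with rfl | rfl
  · exact cs_zero l
  · exact cs_self hl

/-- The first symmetric function of the coordinates. -/
noncomputable def F1 (l : ℝ) (w : Space) : ℝ := cs l (w 0) + cs l (w 1) + cs l (w 2) - 1

/-- The second symmetric function of the coordinates. -/
noncomputable def F2 (l : ℝ) (w : Space) : ℝ := cs l (w 0) * cs l (w 1) * cs l (w 2)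

/-- The first symmetric function of the coordinates of the grid. -/
noncomputable def G1 (l : ℝ) (α β y : ℂ) : ℝ := cs l (α * y + β).re + cs l (α * y + β).im

/-- The second symmetric function of the coordinates of the grid. -/
noncomputable def G2 (l : ℝ) (α β y : ℂ) : ℝ := cs l (α * y + β).re * cs l (α * y + β).im

theorem sum_three {i j k : Fin 3} (hij : i ≠ j) (hik : i ≠ k) (hjk : j ≠ k) (g : Fin 3 → ℝ) :
    g 0 + g 1 + g 2 = g i + g j + g k := by
  fin_cases i <;> fin_cases j <;> fin_cases k <;> simp_all <;> ring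

theorem prod_three {i j k : Fin 3} (hij : i ≠ j) (hik : i ≠ k) (hjk : j ≠ k) (g : Fin 3 → ℝ) :
    g 0 * g 1 * g 2 = g i * g j * g k := by
  fin_cases i <;> fin_cases j <;> fin_cases k <;>
    first | exact absurd rfl hij | exact absurd rfl hik | exact absurd rfl hjk | (dsimp; done) |
      (dsimp; ring)

theorem cases_three {i j k : Fin 3} (hij : i ≠ j) (hik : i ≠ k) (hjk : j ≠ k) (m : Fin 3) :
    m = i ∨ m = j ∨ m = k := by
  fin_cases i <;> fin_cases j <;> fin_cases k <;> fin_cases m <;> simp_all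

theorem sq_dist_three {i j k : Fin 3} (hij : i ≠ j) (hik : i ≠ k) (hjk : j ≠ k) (w w' : Space) :
    dist w w' ^ 2 = (w i - w' i) ^ 2 + (w j - w' j) ^ 2 + (w k - w' k) ^ 2 := by
  rw [EuclideanSpace.dist_eq, Real.sq_sqrt (by positivity), Fin.sum_univ_three]
  rw [sum_three hij hik hjk (fun m => dist (w m) (w' m) ^ 2)]
  simp only [Real.dist_eq, sq_abs]

theorem abs_coord_le (w w' : Space) (i : Fin 3) : |w i - w' i| ≤ dist w w' := by
  rw [EuclideanSpace.dist_eq]
  refine Real.le_sqrt_of_sq_le ?_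
  rw [sq_abs]
  calc (w i - w' i) ^ 2 = dist (w i) (w' i) ^ 2 := by rw [Real.dist_eq, sq_abs]
    _ ≤ _ := Finset.single_le_sum (f := fun m => dist (w m) (w' m) ^ 2)
      (fun m _ => by positivity) (Finset.mem_univ i)

theorem segment_face {l : ℝ} {w w' : Space} (hw : w ∈ cubeSurface l) (hw' : w' ∈ cubeSurface l)
    {i : Fin 3} (he : w i = 0 ∨ w i = l) (h : w' i = w i) : segment ℝ w w' ⊆ cubeSurface l := by
  rintro _ ⟨a, b, ha, hb, hab, rfl⟩
  constructor
  · intro m
    have h1 := hw.1 m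
    have h2 := hw'.1 m
    simp only [PiLp.add_apply, PiLp.smul_apply, smul_eq_mul]
    constructor
    · have := mul_nonneg ha h1.1
      have := mul_nonneg hb h2.1
      linarith
    · have := mul_le_mul_of_nonneg_left h1.2 ha
      have := mul_le_mul_of_nonneg_left h2.2 hb
      have e : a * l + b * l = l := by rw [← add_mul, hab, one_mul]
      linarith
  · refine ⟨i, ?_⟩
    simp only [PiLp.add_apply, PiLp.smul_apply, smul_eq_mul]
    rw [h, ← add_mul, hab, one_mul]
    exact he

section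

variable {l : ℝ} {f : ℂ → Space} {x : ℂ} {ε : ℝ}

theorem lip (hiso : ∀ y ∈ ball x ε, ∀ z ∈ ball x ε,
    pathDist (cubeSurface l) (f y) (f z) = edist y z) :
    ∀ y ∈ ball x ε, ∀ z ∈ ball x ε, dist (f y) (f z) ≤ dist y z := by
  intro y hy z hz
  have h := edist_le_pathDist (cubeSurface l) (f y) (f z)
  rw [hiso y hy z hz, edist_dist, edist_dist] at h
  exact (ENNReal.ofReal_le_ofReal_iff dist_nonneg).1 h

theorem dist_face (hiso : ∀ y ∈ ball x ε, ∀ z ∈ ball x ε,
    pathDist (cubeSurface l) (f y) (f z) = edist y z)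
    (hs : ∀ y ∈ ball x ε, f y ∈ cubeSurface l) {y z : ℂ} (hy : y ∈ ball x ε) (hz : z ∈ ball x ε)
    {i : Fin 3} (he : f y i = 0 ∨ f y i = l) (h : f z i = f y i) :
    dist (f y) (f z) = dist y z := by
  have h1 := pathDist_eq_of_segment (segment_face (hs y hy) (hs z hz) he h)
  rw [hiso y hy z hz, edist_dist, edist_dist] at h1
  exact ((ENNReal.ofReal_eq_ofReal_iff dist_nonneg dist_nonneg).1 h1).symm

/-- The coordinates `j` and `k` as a point of the plane. -/
noncomputable def T (f : ℂ → Space) (j k : Fin 3) (y : ℂ) : ℂ := ⟨f y j, f y k⟩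

/-- Points mapped to the interior of a face. -/
theorem local_face (hε : 0 < ε) (hiso : ∀ y ∈ ball x ε, ∀ z ∈ ball x ε,
    pathDist (cubeSurface l) (f y) (f z) = edist y z)
    (hs : ∀ y ∈ ball x ε, f y ∈ cubeSurface l) {i j k : Fin 3} (hij : i ≠ j) (hik : i ≠ k)
    (hjk : j ≠ k) (hj : 0 < f x j ∧ f x j < l) (hk : 0 < f x k ∧ f x k < l) :
    (f x i = 0 ∨ f x i = l) ∧
    ∃ δ > 0, δ ≤ ε ∧ (∀ y ∈ ball x δ, f y i = f x i ∧ (0 < f y j ∧ f y j < l) ∧
      (0 < f y k ∧ f y k < l)) ∧
      ∀ y ∈ ball x δ, ∀ z ∈ ball x δ, dist (T f j k y) (T f j k z) = dist y z := by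
  have hx : x ∈ ball x ε := mem_ball_self hε
  have hend : ∀ y ∈ ball x ε, (0 < f y j ∧ f y j < l) → (0 < f y k ∧ f y k < l) →
      (f y i = 0 ∨ f y i = l) := by
    intro y hy h1 h2
    obtain ⟨m, hm⟩ := (hs y hy).2
    rcases cases_three hij hik hjk m with rfl | rfl | rfl
    · exact hm
    · rcases hm with hm | hm <;> linarith
    · rcases hm with hm | hm <;> linarith
  have hxe := hend x hx hj hk
  refine ⟨hxe, min ε (min (min (f x j) (l - f x j)) (min (f x k) (l - f x k))), ?_, min_le_left _ _,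
    ?_, ?_⟩
  · have : 0 < l - f x j := by linarith
    have : 0 < l - f x k := by linarith
    have := hj.1
    have := hk.1
    positivity
  all_goals
    set δ := min ε (min (min (f x j) (l - f x j)) (min (f x k) (l - f x k))) with hδ
    have hA : ∀ y ∈ ball x δ, y ∈ ball x ε ∧ f y i = f x i ∧ (0 < f y j ∧ f y j < l) ∧
      (0 < f y k ∧ f y k < l) := by
      intro y hy
      have hyε : y ∈ ball x ε := ball_subset_ball (min_le_left _ _) hy
      have hd : dist (f y) (f x) < δ := (lip hiso y hyε x hx).trans_lt (mem_ball.1 hy)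
      have hdj := (abs_coord_le (f y) (f x) j).trans_lt hd
      have hdk := (abs_coord_le (f y) (f x) k).trans_lt hd
      have hdi := (abs_coord_le (f y) (f x) i).trans_lt hd
      have d1 : δ ≤ f x j := by simp [hδ]
      have d2 : δ ≤ l - f x j := by simp [hδ]
      have d3 : δ ≤ f x k := by simp [hδ]
      have d4 : δ ≤ l - f x k := by simp [hδ]
      rw [abs_lt] at hdj hdk hdi
      have h1 : 0 < f y j ∧ f y j < l := ⟨by linarith, by linarith⟩
      have h2 : 0 < f y k ∧ f y k < l := ⟨by linarith, by linarith⟩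
      refine ⟨hyε, ?_, h1, h2⟩
      rcases hend y hyε h1 h2 with h3 | h3 <;> rcases hxe with h4 | h4 <;> linarith
  · intro y hy
    exact (hA y hy).2
  · intro y hy z hz
    obtain ⟨hy1, hy2, hy3, hy4⟩ := hA y hy
    obtain ⟨hz1, hz2, hz3, hz4⟩ := hA z hz
    have h1 := dist_face hiso hs hy1 hz1 (i := i) (by rw [hy2]; exact hxe) (by rw [hy2, hz2])
    rw [← h1]
    have h2 := sq_dist_re_im (T f j k y) (T f j k z)
    have h3 := sq_dist_three hij hik hjk (f y) (f z)
    rw [hy2, hz2, sub_self] at h3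
    simp only [T] at h2
    rw [← sq_eq_sq₀ dist_nonneg dist_nonneg, h3]
    simp only [T]
    rw [h2]
    ring

/-- The signed distance to the edge. -/
noncomputable def tt (f : ℂ → Space) (x : ℂ) (i j : Fin 3) (y : ℂ) : ℝ :=
  |f y j - f x j| - |f y i - f x i|

/-- The unfolding of two faces at an edge. -/
noncomputable def U (f : ℂ → Space) (x : ℂ) (i j k : Fin 3) (y : ℂ) : ℂ := ⟨tt f x i j y, f y k⟩

theorem sq_abs_end {l e a b : ℝ} (he : e = 0 ∨ e = l) (ha : 0 ≤ a ∧ a ≤ l) (hb : 0 ≤ b ∧ b ≤ l) :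
    (|a - e| - |b - e|) ^ 2 = (a - b) ^ 2 := by
  rcases he with rfl | rfl
  · rw [sub_zero, sub_zero, abs_of_nonneg ha.1, abs_of_nonneg hb.1]
  · rw [abs_of_nonpos (by linarith [ha.2]), abs_of_nonpos (by linarith [hb.2])]
    ring

theorem tt_nonneg {i j : Fin 3} {y : ℂ} (h : f y i = f x i ∨ f y j = f x j)
    (ht : 0 ≤ tt f x i j y) : f y i = f x i := by
  rcases h with h | h
  · exact h
  · unfold tt at ht
    rw [h, sub_self, abs_zero, zero_sub] at ht
    have : |f y i - f x i| = 0 := le_antisymm (by linarith) (abs_nonneg _)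
    rw [abs_eq_zero] at this
    linarith

theorem tt_nonpos {i j : Fin 3} {y : ℂ} (h : f y i = f x i ∨ f y j = f x j)
    (ht : tt f x i j y ≤ 0) : f y j = f x j := by
  rcases h with h | h
  · unfold tt at ht
    rw [h, sub_self, abs_zero, sub_zero] at ht
    have : |f y j - f x j| = 0 := le_antisymm (by linarith) (abs_nonneg _)
    rw [abs_eq_zero] at this
    linarith
  · exact h

/-- Points mapped to the interior of an edge. -/
theorem local_edge (hε : 0 < ε) (hiso : ∀ y ∈ ball x ε, ∀ z ∈ ball x ε,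
    pathDist (cubeSurface l) (f y) (f z) = edist y z)
    (hs : ∀ y ∈ ball x ε, f y ∈ cubeSurface l) {i j k : Fin 3} (hij : i ≠ j) (hik : i ≠ k)
    (hjk : j ≠ k) (hi : f x i = 0 ∨ f x i = l) (hj : f x j = 0 ∨ f x j = l)
    (hk : 0 < f x k ∧ f x k < l) :
    ∃ δ > 0, (∀ y ∈ ball x δ, (f y i = f x i ∨ f y j = f x j)) ∧
      ∀ y ∈ ball x δ, ∀ z ∈ ball x δ, dist (U f x i j k y) (U f x i j k z) = dist y z := by
  have hx : x ∈ ball x ε := mem_ball_self hε
  have hl : 0 < l := hk.1.trans hk.2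
  obtain ⟨δ, hδ⟩ : ∃ δ, δ = min ε (min (l / 2) (min (f x k) (l - f x k))) := ⟨_, rfl⟩
  have hδ0 : 0 < δ := by
    have : 0 < l - f x k := by linarith
    have := hk.1
    rw [hδ]
    positivity
  have hA : ∀ y ∈ ball x δ, y ∈ ball x ε ∧ (f y i = f x i ∨ f y j = f x j) ∧
      (0 < f y k ∧ f y k < l) := by
    intro y hy
    have hyε : y ∈ ball x ε := ball_subset_ball (by rw [hδ]; exact min_le_left _ _) hy
    have hd : dist (f y) (f x) < δ := (lip hiso y hyε x hx).trans_lt (mem_ball.1 hy)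
    have hdj := (abs_coord_le (f y) (f x) j).trans_lt hd
    have hdk := (abs_coord_le (f y) (f x) k).trans_lt hd
    have hdi := (abs_coord_le (f y) (f x) i).trans_lt hd
    have d1 : δ ≤ l / 2 := by simp [hδ]
    have d3 : δ ≤ f x k := by simp [hδ]
    have d4 : δ ≤ l - f x k := by simp [hδ]
    rw [abs_lt] at hdj hdk hdi
    have h2 : 0 < f y k ∧ f y k < l := ⟨by linarith, by linarith⟩
    refine ⟨hyε, ?_, h2⟩
    obtain ⟨m, hm⟩ := (hs y hyε).2
    rcases cases_three hij hik hjk m with rfl | rfl | rfl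
    · left
      rcases hm with h3 | h3 <;> rcases hi with h4 | h4 <;> linarith
    · right
      rcases hm with h3 | h3 <;> rcases hj with h4 | h4 <;> linarith
    · rcases hm with hm | hm <;> linarith
  -- same side
  have same : ∀ y ∈ ball x δ, ∀ z ∈ ball x δ, 0 ≤ tt f x i j y → 0 ≤ tt f x i j z →
      dist (U f x i j k y) (U f x i j k z) = dist y z := by
    intro y hy z hz h1 h2
    obtain ⟨hy1, hy2, hy3⟩ := hA y hy
    obtain ⟨hz1, hz2, hz3⟩ := hA z hz
    have ey := tt_nonneg hy2 h1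
    have ez := tt_nonneg hz2 h2
    rw [← dist_face hiso hs hy1 hz1 (i := i) (by rw [ey]; exact hi) (by rw [ey, ez])]
    rw [← sq_eq_sq₀ dist_nonneg dist_nonneg, sq_dist_three hij hik hjk, sq_dist_re_im]
    simp only [U, tt, ey, ez, sub_self, abs_zero, sub_zero]
    rw [sq_abs_end hj ((hs y hy1).1 j) ((hs z hz1).1 j)]
    ring
  have same' : ∀ y ∈ ball x δ, ∀ z ∈ ball x δ, tt f x i j y ≤ 0 → tt f x i j z ≤ 0 →
      dist (U f x i j k y) (U f x i j k z) = dist y z := by
    intro y hy z hz h1 h2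
    obtain ⟨hy1, hy2, hy3⟩ := hA y hy
    obtain ⟨hz1, hz2, hz3⟩ := hA z hz
    have ey := tt_nonpos hy2 h1
    have ez := tt_nonpos hz2 h2
    rw [← dist_face hiso hs hy1 hz1 (i := j) (by rw [ey]; exact hj) (by rw [ey, ez])]
    rw [← sq_eq_sq₀ dist_nonneg dist_nonneg, sq_dist_three hij hik hjk, sq_dist_re_im]
    simp only [U, tt, ey, ez, sub_self, abs_zero, zero_sub]
    have := sq_abs_end hi ((hs y hy1).1 i) ((hs z hz1).1 i)
    linear_combination this
  have opp : ∀ y ∈ ball x δ, ∀ z ∈ ball x δ, 0 < tt f x i j y → tt f x i j z < 0 →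
      dist (U f x i j k y) (U f x i j k z) = dist y z := by
    intro y hy z hz h1 h2
    obtain ⟨hy1, hy2, hy3⟩ := hA y hy
    obtain ⟨hz1, hz2, hz3⟩ := hA z hz
    have ey := tt_nonneg hy2 h1.le
    have ez := tt_nonpos hz2 h2.le
    apply le_antisymm
    · -- a point of the edge between `y` and `z`
      have hfc : ContinuousOn f (ball x δ) := by
        have : LipschitzOnWith 1 f (ball x δ) := LipschitzOnWith.of_dist_le_mul fun a ha b hb => by
          simpa using lip hiso a (hA a ha).1 b (hA b hb).1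
        exact this.continuousOn
      have hco : ∀ m, ContinuousOn (fun y => f y m) (ball x δ) := fun m =>
        (continuous_apply m |>.comp (PiLp.continuous_ofLp 2 _)).comp_continuousOn hfc
      have htt : ContinuousOn (tt f x i j) (ball x δ) :=
        ((hco j).sub continuousOn_const).abs.sub ((hco i).sub continuousOn_const).abs
      have hseg : segment ℝ y z ⊆ ball x δ := (convex_ball x δ).segment_subset hy hz
      have hiv := (convex_segment (𝕜 := ℝ) y z).isPreconnected.intermediate_value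
        (right_mem_segment ℝ y z) (left_mem_segment ℝ y z) (htt.mono hseg)
      obtain ⟨p, hp, hp0⟩ := hiv ⟨h2.le, h1.le⟩
      have hpb := hseg hp
      have d1 := same y hy p hpb h1.le hp0.ge
      have d2 := same' p hpb z hz hp0.le h2.le
      calc dist (U f x i j k y) (U f x i j k z)
          ≤ dist (U f x i j k y) (U f x i j k p) + dist (U f x i j k p) (U f x i j k z) :=
            dist_triangle _ _ _
        _ = dist y z := by rw [d1, d2, dist_add_dist_of_mem_segment hp]
    · -- the path through the edge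
      obtain ⟨t, ht⟩ : ∃ t, t = tt f x i j y := ⟨_, rfl⟩
      obtain ⟨t', ht'⟩ : ∃ t, t = tt f x i j z := ⟨_, rfl⟩
      rw [← ht] at h1
      rw [← ht'] at h2
      obtain ⟨c, hc⟩ : ∃ c, c = t / (t - t') := ⟨_, rfl⟩
      have htt' : 0 < t - t' := by linarith
      have hc0 : 0 ≤ c := by rw [hc]; positivity
      have hc1 : c ≤ 1 := by rw [hc, div_le_one htt']; linarith
      have hct : c * (t - t') = t := by rw [hc]; field_simp
      obtain ⟨s, hsq⟩ : ∃ s, s = (1 - c) * f y k + c * f z k := ⟨_, rfl⟩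
      have hs0 : 0 ≤ s := by
        rw [hsq]
        have := mul_nonneg hc0 hz3.1.le
        have := mul_nonneg (sub_nonneg.2 hc1) hy3.1.le
        linarith
      have hs1 : s ≤ l := by
        rw [hsq]
        have := mul_le_mul_of_nonneg_left hz3.2.le hc0
        have := mul_le_mul_of_nonneg_left hy3.2.le (sub_nonneg.2 hc1)
        linarith
      obtain ⟨q, hq⟩ : ∃ q : Space, ∀ m, q m = if m = k then s else f x m :=
        ⟨WithLp.toLp 2 fun m => if m = k then s else f x m, fun m => rfl⟩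
      have hqi : q i = f x i := by rw [hq, if_neg hik]
      have hqj : q j = f x j := by rw [hq, if_neg hjk]
      have hqk : q k = s := by rw [hq, if_pos rfl]
      have hqs : q ∈ cubeSurface l := by
        refine ⟨fun m => ?_, i, by rw [hqi]; exact hi⟩
        rcases cases_three hij hik hjk m with rfl | rfl | rfl
        · rw [hqi]; exact (hs x hx).1 _
        · rw [hqj]; exact (hs x hx).1 _
        · rw [hqk]; exact ⟨hs0, hs1⟩
      have e1 := pathDist_le_two (segment_face (hs y hy1) hqs (i := i) (by rw [ey]; exact hi)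
        (by rw [ey, hqi])) (segment_face hqs (hs z hz1) (i := j) (by rw [hqj]; exact hj)
        (by rw [ez, hqj]))
      rw [hiso y hy1 z hz1, edist_dist, edist_dist, edist_dist,
        ← ENNReal.ofReal_add dist_nonneg dist_nonneg,
        ENNReal.ofReal_le_ofReal_iff (by positivity)] at e1
      refine e1.trans (le_of_eq ?_)
      have d1 : dist (f y) q = dist (U f x i j k y) ⟨0, s⟩ := by
        rw [← sq_eq_sq₀ dist_nonneg dist_nonneg, sq_dist_three hij hik hjk, sq_dist_re_im]
        simp only [U, tt, ey, hqi, hqj, hqk, sub_self, abs_zero, sub_zero, sq_abs]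
        ring
      have d2 : dist q (f z) = dist (⟨0, s⟩ : ℂ) (U f x i j k z) := by
        rw [← sq_eq_sq₀ dist_nonneg dist_nonneg, sq_dist_three hij hik hjk, sq_dist_re_im]
        simp only [U, tt, ez, hqi, hqj, hqk, sub_self, abs_zero, zero_sub, neg_neg, sq_abs]
        ring
      have hmem : (⟨0, s⟩ : ℂ) ∈ segment ℝ (U f x i j k y) (U f x i j k z) := by
        refine ⟨1 - c, c, sub_nonneg.2 hc1, hc0, by ring, ?_⟩
        apply Complex.ext
        · simp [U, ← ht, ← ht']
          linear_combination -hct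
        · simp [U]
          linear_combination -hsq
      rw [d1, d2, dist_add_dist_of_mem_segment hmem]
  refine ⟨δ, hδ0, fun y hy => (hA y hy).2.1, ?_⟩
  intro y hy z hz
  rcases lt_trichotomy (tt f x i j y) 0 with h1 | h1 | h1 <;>
    rcases lt_trichotomy (tt f x i j z) 0 with h2 | h2 | h2
  · exact same' y hy z hz h1.le h2.le
  · exact same' y hy z hz h1.le h2.le
  · rw [dist_comm, opp z hz y hy h2 h1, dist_comm]
  · exact same' y hy z hz h1.le h2.le
  · exact same' y hy z hz h1.le h2.le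
  · exact same y hy z hz h1.ge h2.le
  · exact opp y hy z hz h1 h2
  · exact same y hy z hz h1.le h2.ge
  · exact same y hy z hz h1.le h2.le

theorem planar_grid {S : ℂ → ℂ} {r : ℝ} (hr : 0 < r) (l : ℝ)
    (hS : ∀ y ∈ ball x r, ∀ z ∈ ball x r, dist (S y) (S z) = dist y z) :
    ∃ α β : ℂ, ‖α‖ = 1 ∧ ∀ y ∈ ball x r, cs l (S y).re = cs l (α * y + β).re ∧
      cs l (S y).im = cs l (α * y + β).im := by
  obtain ⟨α, hα, h | h⟩ := planar hr hS
  · refine ⟨α, S x - α * x, hα, fun y hy => ?_⟩
    rw [h y hy, show S x + α * (y - x) = α * y + (S x - α * x) by ring]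
    exact ⟨rfl, rfl⟩
  · refine ⟨conj α, conj (S x) - conj α * x, by rw [RCLike.norm_conj, hα], fun y hy => ?_⟩
    have h1 : conj α * y + (conj (S x) - conj α * x) = conj (S y) := by
      rw [h y hy]
      simp only [map_add, map_mul, map_sub, Complex.conj_conj]
      ring
    rw [h1, Complex.conj_re, Complex.conj_im, cs_neg]
    exact ⟨rfl, rfl⟩

theorem local_struct (hε : 0 < ε) (hiso : ∀ y ∈ ball x ε, ∀ z ∈ ball x ε,
    pathDist (cubeSurface l) (f y) (f z) = edist y z)
    (hs : ∀ y ∈ ball x ε, f y ∈ cubeSurface l) (hx : ∃ k, f x k ≠ 0 ∧ f x k ≠ l) :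
    ∃ α β : ℂ, ‖α‖ = 1 ∧ ∃ δ > 0, ∀ y ∈ ball x δ,
      F1 l (f y) = G1 l α β y ∧ F2 l (f y) = G2 l α β y := by
  have hxb : x ∈ ball x ε := mem_ball_self hε
  obtain ⟨k, hk0, hkl⟩ := hx
  have hk : 0 < f x k ∧ f x k < l :=
    ⟨lt_of_le_of_ne ((hs x hxb).1 k).1 (Ne.symm hk0), lt_of_le_of_ne ((hs x hxb).1 k).2 hkl⟩
  have hl : l ≠ 0 := (hk.1.trans hk.2).ne'
  -- the other two coordinates
  obtain ⟨i, j, hij, hik, hjk, hi⟩ : ∃ i j : Fin 3, i ≠ j ∧ i ≠ k ∧ j ≠ k ∧
      (f x i = 0 ∨ f x i = l) := by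
    obtain ⟨m, hm⟩ := (hs x hxb).2
    have hmk : m ≠ k := by
      rintro rfl
      rcases hm with h | h
      · exact hk0 h
      · exact hkl h
    obtain ⟨j, hj1, hj2⟩ : ∃ j : Fin 3, m ≠ j ∧ j ≠ k := by
      clear hm hk hk0 hkl
      revert m k
      decide
    exact ⟨m, j, hj1, hmk, hj2, hm⟩
  by_cases hj : f x j = 0 ∨ f x j = l
  · obtain ⟨δ, hδ, h1, h2⟩ := local_edge hε hiso hs hij hik hjk hi hj hk
    obtain ⟨α, β, hα, h3⟩ := planar_grid hδ l h2
    refine ⟨α, β, hα, δ, hδ, fun y hy => ?_⟩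
    have key : cs l (f y i) + cs l (f y j) = 1 + cs l (tt f x i j y) ∧
        cs l (f y i) * cs l (f y j) = cs l (tt f x i j y) := by
      rcases h1 y hy with h | h
      · unfold tt
        rw [h, sub_self, abs_zero, sub_zero, cs_abs, cs_sub_end hl hj, cs_end hl hi, one_mul]
        exact ⟨rfl, rfl⟩
      · unfold tt
        rw [h, sub_self, abs_zero, zero_sub, cs_neg, cs_abs, cs_sub_end hl hi, cs_end hl hj,
          mul_one]
        exact ⟨add_comm _ _, rfl⟩
    obtain ⟨h4, h5⟩ := h3 y hy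
    simp only [U] at h4 h5
    unfold F1 F2 G1 G2
    rw [sum_three hij hik hjk (fun m => cs l (f y m)), prod_three hij hik hjk
      (fun m => cs l (f y m)), ← h4, ← h5, key.1, key.2]
    exact ⟨by ring, rfl⟩
  · have hj' : 0 < f x j ∧ f x j < l := by
      rw [not_or] at hj
      exact ⟨lt_of_le_of_ne ((hs x hxb).1 j).1 (Ne.symm hj.1),
        lt_of_le_of_ne ((hs x hxb).1 j).2 hj.2⟩
    obtain ⟨-, δ, hδ, -, h1, h2⟩ := local_face hε hiso hs hij hik hjk hj' hk
    obtain ⟨α, β, hα, h3⟩ := planar_grid hδ l h2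
    refine ⟨α, β, hα, δ, hδ, fun y hy => ?_⟩
    obtain ⟨h4, h5⟩ := h3 y hy
    simp only [T] at h4 h5
    unfold F1 F2 G1 G2
    rw [sum_three hij hik hjk (fun m => cs l (f y m)), prod_three hij hik hjk
      (fun m => cs l (f y m)), ← h4, ← h5, (h1 y hy).1, cs_end hl hi]
    exact ⟨by ring, by ring⟩

end

end Q47.Cube
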