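import Pool.Agent.Q47.Cube.Vertex

open Set Metric Complex Filter Topology MeasureTheory
open scoped ENNReal NNReal ComplexConjugate

namespace Q47.Cube

theorem volume_reProdIm (A B : Set ℝ) : volume (A ×ℂ B) = volume A * volume B := by
  have h : A ×ℂ B = Complex.measurableEquivRealProd ⁻¹' (A ×ˢ B) := by
    ext z
    simp [Complex.mem_reProdIm]
  rw [h, Complex.volume_preserving_equiv_real_prod.measure_preimage_equiv,
    Measure.volume_eq_prod, Measure.prod_prod]

theorem volume_re_eq (c : ℝ) : volume {z : ℂ | z.re = c} = 0 := by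
  have h : {z : ℂ | z.re = c} = {c} ×ℂ univ := by
    ext z
    simp [Complex.mem_reProdIm]
  rw [h, volume_reProdIm, Real.volume_singleton, zero_mul]

theorem volume_im_eq (c : ℝ) : volume {z : ℂ | z.im = c} = 0 := by
  have h : {z : ℂ | z.im = c} = univ ×ℂ {c} := by
    ext z
    simp [Complex.mem_reProdIm]
  rw [h, volume_reProdIm, Real.volume_singleton, mul_zero]

theorem volume_lines (l : ℝ) : volume {z : ℂ | ∃ n : ℤ, z.re = n * l ∨ z.im = n * l} = 0 := by
  have h : {z : ℂ | ∃ n : ℤ, z.re = n * l ∨ z.im = n * l} ⊆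
      ⋃ n : ℤ, ({z : ℂ | z.re = n * l} ∪ {z : ℂ | z.im = n * l}) := by
    rintro z ⟨n, hn⟩
    exact mem_iUnion.2 ⟨n, hn⟩
  refine measure_mono_null h (measure_iUnion_null fun n => ?_)
  exact measure_union_null (volume_re_eq _) (volume_im_eq _)

theorem volume_not_nonInt : volume {z : ℂ | ¬ NonInt z} = 0 := by
  refine measure_mono_null ?_ (volume_lines 1)
  intro z hz
  simp only [mem_ofPred_eq, NonInt, not_and_or, not_forall, not_not] at hz
  rcases hz with ⟨n, hn⟩ | ⟨n, hn⟩
  · exact ⟨n, Or.inl (by rw [hn, mul_one])⟩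
  · exact ⟨n, Or.inr (by rw [hn, mul_one])⟩

theorem volume_grid_lines (l : ℝ) {α : ℂ} (hα : α ≠ 0) (β : ℂ) :
    volume {y : ℂ | ∃ n : ℤ, (α * y + β).re = n * l ∨ (α * y + β).im = n * l} = 0 := by
  have h : {y : ℂ | ∃ n : ℤ, (α * y + β).re = n * l ∨ (α * y + β).im = n * l} ⊆
      (fun z : ℂ => (z - β) / α) '' {z : ℂ | ∃ n : ℤ, z.re = n * l ∨ z.im = n * l} := by
    intro y hy
    refine ⟨α * y + β, hy, ?_⟩
    field_simp
    ring
  refine measure_mono_null h ?_
  refine addHaar_image_eq_zero_of_differentiableOn_of_addHaar_eq_zero volume ?_ (volume_lines l)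
  have : Differentiable ℂ (fun z : ℂ => (z - β) / α) := by fun_prop
  exact (this.restrictScalars ℝ).differentiableOn

/-- The maps used to describe the points of the same class. -/
noncomputable def psi (l : ℝ) (α β : ℂ) (σ τ sw : Bool) (n m : ℤ) (q : ℂ) : ℂ :=
  ((n * l + (if σ then 1 else -1) * (if sw then (α * q + β).im else (α * q + β).re) : ℝ) : ℂ) +
  ((m * l + (if τ then 1 else -1) * (if sw then (α * q + β).re else (α * q + β).im) : ℝ) : ℂ) * I

theorem differentiable_re (α β : ℂ) : Differentiable ℝ (fun q : ℂ => (α * q + β).re) := by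
  have h : Differentiable ℂ (fun q : ℂ => α * q + β) := by fun_prop
  exact Complex.reCLM.differentiable.comp (h.restrictScalars ℝ)

theorem differentiable_im (α β : ℂ) : Differentiable ℝ (fun q : ℂ => (α * q + β).im) := by
  have h : Differentiable ℂ (fun q : ℂ => α * q + β) := by fun_prop
  exact Complex.imCLM.differentiable.comp (h.restrictScalars ℝ)

theorem differentiable_psi (l : ℝ) (α β : ℂ) (σ τ sw : Bool) (n m : ℤ) :
    Differentiable ℝ (psi l α β σ τ sw n m) := by
  have h1 : Differentiable ℝ (fun q : ℂ => if sw then (α * q + β).im else (α * q + β).re) := by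
    cases sw
    · simpa using differentiable_re α β
    · simpa using differentiable_im α β
  have h2 : Differentiable ℝ (fun q : ℂ => if sw then (α * q + β).re else (α * q + β).im) := by
    cases sw
    · simpa using differentiable_im α β
    · simpa using differentiable_re α β
  have h3 : Differentiable ℝ (fun q : ℂ => (n * l + (if σ then 1 else -1) *
      (if sw then (α * q + β).im else (α * q + β).re) : ℝ)) :=
    (differentiable_const _).add ((differentiable_const _).mul h1)
  have h4 : Differentiable ℝ (fun q : ℂ => (m * l + (if τ then 1 else -1) *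
      (if sw then (α * q + β).re else (α * q + β).im) : ℝ)) :=
    (differentiable_const _).add ((differentiable_const _).mul h2)
  exact (Complex.ofRealCLM.differentiable.comp h3).add
    ((Complex.ofRealCLM.differentiable.comp h4).mul (differentiable_const _))

theorem cs_eq_cs {l s t : ℝ} (hl : 0 < l) (h : cs l s = cs l t) :
    ∃ (n : ℤ) (σ : Bool), s = n * l + (if σ then 1 else -1) * t := by
  obtain ⟨k, hk | hk⟩ := Real.cos_eq_cos_iff.1 h.symm
  · refine ⟨k, true, ?_⟩
    have hpi := Real.pi_pos
    field_simp at hk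
    simp only [if_true]
    nlinarith
  · refine ⟨k, false, ?_⟩
    have hpi := Real.pi_pos
    field_simp at hk
    simp only [Bool.false_eq_true, if_false]
    nlinarith

/-- The set of the points whose class is the class of a point with an integral coordinate is a
null set. -/
theorem volume_class_null {l : ℝ} (hl : 0 < l) (α β : ℂ) :
    volume {τ : ℂ | ∃ q : ℂ, ¬ NonInt q ∧ cs l τ.re + cs l τ.im = G1 l α β q ∧
      cs l τ.re * cs l τ.im = G2 l α β q} = 0 := by
  have h : {τ : ℂ | ∃ q : ℂ, ¬ NonInt q ∧ cs l τ.re + cs l τ.im = G1 l α β q ∧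
      cs l τ.re * cs l τ.im = G2 l α β q} ⊆
      ⋃ x : (Bool × Bool × Bool) × ℤ × ℤ,
        psi l α β x.1.1 x.1.2.1 x.1.2.2 x.2.1 x.2.2 '' {z : ℂ | ¬ NonInt z} := by
    rintro t ⟨q, hq, h1, h2⟩
    unfold G1 at h1
    unfold G2 at h2
    rcases pair_cases h1 h2 with ⟨h3, h4⟩ | ⟨h3, h4⟩
    · obtain ⟨n, σ, e1⟩ := cs_eq_cs hl h3
      obtain ⟨m, τ, e2⟩ := cs_eq_cs hl h4
      refine mem_iUnion.2 ⟨⟨(σ, τ, false), n, m⟩, q, hq, ?_⟩
      simp only [psi, Bool.false_eq_true, if_false]
      rw [← e1, ← e2, Complex.re_add_im]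
    · obtain ⟨n, σ, e1⟩ := cs_eq_cs hl h3
      obtain ⟨m, τ, e2⟩ := cs_eq_cs hl h4
      refine mem_iUnion.2 ⟨⟨(σ, τ, true), n, m⟩, q, hq, ?_⟩
      simp only [psi, if_true]
      rw [← e1, ← e2, Complex.re_add_im]
  refine measure_mono_null h (measure_iUnion_null fun x => ?_)
  exact addHaar_image_eq_zero_of_differentiableOn_of_addHaar_eq_zero volume
    (differentiable_psi l α β _ _ _ _ _).differentiableOn volume_not_nonInt

theorem volume_cell (c : ℤ × ℤ) : volume (cell c) = 1 := by
  rw [cell_eq, volume_reProdIm, Real.volume_Icc, Real.volume_Icc]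
  norm_num

theorem volume_region (s : Finset (ℤ × ℤ)) : volume (region s) = s.card := by
  unfold region
  rw [measure_biUnion_finset₀]
  · simp [volume_cell]
  · intro c _ d _ hcd
    refine measure_mono_null ?_ volume_not_nonInt
    rintro z ⟨hz1, hz2⟩
    intro hz
    apply hcd
    have h1 : z ∈ region {c} := by simpa [region] using hz1
    have h2 : z ∈ region {d} := by simpa [region] using hz2
    rw [mem_region_iff hz, Finset.mem_singleton] at h1 h2
    rw [← h1, ← h2]
  · intro c _
    exact (isCompact_cell c).isClosed.measurableSet.nullMeasurableSet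

end Q47.Cube
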