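import Pool.Agent.Q47.Cube.Global
import Pool.Agent.Q47.Cube.Cells

open Set Metric Complex Filter Topology
open scoped ENNReal NNReal ComplexConjugate

namespace Q47.Cube

theorem cs_le_one (l t : ℝ) : cs l t ≤ 1 := Real.cos_le_one _

theorem cs_eq_one {l t : ℝ} (hl : 0 < l) (h : cs l t = 1) : ∃ n : ℤ, t = n * l := by
  obtain ⟨n, hn⟩ := (Real.cos_eq_one_iff _).1 h
  refine ⟨n, ?_⟩
  have hpi := Real.pi_pos
  field_simp at hn
  nlinarith [hn]

theorem cs_add_int {l : ℝ} (hl : 0 < l) (t : ℝ) (n : ℤ) : cs l (n * l + t) = cs l t := by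
  unfold cs
  rw [show 2 * Real.pi * (n * l + t) / l = 2 * Real.pi * t / l + n * (2 * Real.pi) by
    field_simp; ring, Real.cos_add_int_mul_two_pi]

/-- On small numbers the function `cs` is injective up to sign. -/
theorem cs_inj {l s t : ℝ} (hl : 0 < l) (hs : |s| < l / 2) (ht : |t| < l / 2)
    (h : cs l s = cs l t) : |s| = |t| := by
  rw [← cs_abs l s, ← cs_abs l t] at h
  have hpi := Real.pi_pos
  have aux : ∀ r : ℝ, |r| < l / 2 → 2 * Real.pi * |r| / l ∈ Icc 0 Real.pi := by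
    intro r hr
    constructor
    · have := abs_nonneg r
      positivity
    · rw [div_le_iff₀ hl]
      nlinarith
  have := Real.injOn_cos (aux s hs) (aux t ht) h
  field_simp at this
  exact this

theorem cs_eq_one_small {l t : ℝ} (hl : 0 < l) (ht : |t| < l / 2) (h : cs l t = 1) : t = 0 := by
  rw [← cs_zero l] at h
  have := cs_inj hl ht (by rw [abs_zero]; positivity) h
  rw [abs_zero, abs_eq_zero] at this
  exact this

/-- Two numbers are determined by their sum and their product. -/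
theorem pair_cases {a b c d : ℝ} (h1 : a + b = c + d) (h2 : a * b = c * d) :
    (a = c ∧ b = d) ∨ (a = d ∧ b = c) := by
  have h : (a - c) * (a - d) = 0 := by
    have : b = c + d - a := by linarith
    rw [this] at h2
    linear_combination -h2
  rcases mul_eq_zero.1 h with h | h
  · left; constructor <;> linarith
  · right; constructor <;> linarith

/-- The direction of the first kind (`1`) and of the second kind (`1 + i`). -/
noncomputable def z0 (b : Bool) : ℂ := if b then 1 + I else 1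

/-- The values of the symmetric functions for the two kinds. -/
noncomputable def C1 (l ρ : ℝ) (b : Bool) : ℝ := if b then cs l ρ + cs l ρ else 1 + cs l ρ

/-- The values of the symmetric functions for the two kinds. -/
noncomputable def C2 (l ρ : ℝ) (b : Bool) : ℝ := if b then cs l ρ * cs l ρ else 1 * cs l ρ

theorem good_direction {α : ℂ} (hα : ‖α‖ = 1) : ∃ b : Bool, (z0 b * conj α).re ≠ 0 ∧
    (z0 b * conj α).im ≠ 0 := by
  have hn : α.re ^ 2 + α.im ^ 2 = 1 := by
    have := Complex.sq_norm α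
    rw [hα, Complex.normSq_apply] at this
    nlinarith
  by_cases h : α.re = 0 ∨ α.im = 0
  · refine ⟨true, ?_⟩
    simp only [z0, if_true, Complex.mul_re, Complex.mul_im, Complex.add_re, Complex.one_re,
      Complex.I_re, Complex.add_im, Complex.one_im, Complex.I_im, Complex.conj_re, Complex.conj_im]
    rcases h with h | h
    · rw [h] at hn ⊢
      have : α.im ≠ 0 := by rintro h'; rw [h'] at hn; norm_num at hn
      constructor
      · simpa using this
      · simpa using this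
    · rw [h] at hn ⊢
      have : α.re ≠ 0 := by rintro h'; rw [h'] at hn; norm_num at hn
      constructor
      · simpa using this
      · simpa using this
  · rw [not_or] at h
    refine ⟨false, ?_⟩
    simp only [z0, Bool.false_eq_true, if_false, one_mul, Complex.conj_re, Complex.conj_im]
    exact ⟨h.1, neg_ne_zero.2 h.2⟩

theorem mul_direction {α : ℂ} (hα : ‖α‖ = 1) (b : Bool) (k : ℕ) (ρ : ℝ) :
    α * (ρ * ((z0 b * conj α) * I ^ k)) = ρ * (z0 b * I ^ k) := by
  have h : α * conj α = 1 := by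
    rw [Complex.mul_conj, Complex.normSq_eq_norm_sq, hα]
    norm_num
  linear_combination (ρ * z0 b * I ^ k) * h

/-- The class of the displacement `ρ z0 i ^ k`. -/
theorem class_direction (l ρ : ℝ) (b : Bool) (k : Fin 4) :
    cs l (ρ * (z0 b * I ^ (k : ℕ)) : ℂ).re + cs l (ρ * (z0 b * I ^ (k : ℕ)) : ℂ).im = C1 l ρ b ∧
    cs l (ρ * (z0 b * I ^ (k : ℕ)) : ℂ).re * cs l (ρ * (z0 b * I ^ (k : ℕ)) : ℂ).im =
      C2 l ρ b := by
  obtain ⟨⟨a0, b0⟩, ⟨a1, b1⟩, ⟨a2, b2⟩, ⟨a3, b3⟩⟩ := rot_re_im (z0 b)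
  rw [Complex.re_ofReal_mul, Complex.im_ofReal_mul]
  have hz : (z0 b).re = 1 ∧ (z0 b).im = if b then 1 else 0 := by
    cases b <;> simp [z0]
  fin_cases k
  · change cs l (ρ * (z0 b * I ^ 0).re) + cs l (ρ * (z0 b * I ^ 0).im) = C1 l ρ b ∧
      cs l (ρ * (z0 b * I ^ 0).re) * cs l (ρ * (z0 b * I ^ 0).im) = C2 l ρ b
    rw [a0, b0, hz.1, hz.2]
    cases b <;> simp [C1, C2, cs_zero, cs_neg, add_comm]
  · change cs l (ρ * (z0 b * I ^ 1).re) + cs l (ρ * (z0 b * I ^ 1).im) = C1 l ρ b ∧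
      cs l (ρ * (z0 b * I ^ 1).re) * cs l (ρ * (z0 b * I ^ 1).im) = C2 l ρ b
    rw [a1, b1, hz.1, hz.2]
    cases b <;> simp [C1, C2, cs_zero, cs_neg, add_comm]
  · change cs l (ρ * (z0 b * I ^ 2).re) + cs l (ρ * (z0 b * I ^ 2).im) = C1 l ρ b ∧
      cs l (ρ * (z0 b * I ^ 2).re) * cs l (ρ * (z0 b * I ^ 2).im) = C2 l ρ b
    rw [a2, b2, hz.1, hz.2]
    cases b <;> simp [C1, C2, cs_zero, cs_neg, add_comm]
  · change cs l (ρ * (z0 b * I ^ 3).re) + cs l (ρ * (z0 b * I ^ 3).im) = C1 l ρ b ∧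
      cs l (ρ * (z0 b * I ^ 3).re) * cs l (ρ * (z0 b * I ^ 3).im) = C2 l ρ b
    rw [a3, b3, hz.1, hz.2]
    cases b <;> simp [C1, C2, cs_zero, cs_neg, add_comm]

/-- A small displacement of the class of `ρ z0` is one of the four displacements
`ρ z0 i ^ k`. -/
theorem direction_of_class {l ρ : ℝ} (hl : 0 < l) (hρ : 0 < ρ) (hρl : ρ < l / 2) {b : Bool} {d : ℂ}
    (hre : |d.re| < l / 2) (him : |d.im| < l / 2) (h1 : cs l d.re + cs l d.im = C1 l ρ b)
    (h2 : cs l d.re * cs l d.im = C2 l ρ b) : ∃ k : Fin 4, d = ρ * (z0 b * I ^ (k : ℕ)) := by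
  have hρa : |ρ| < l / 2 := by rwa [abs_of_pos hρ]
  obtain ⟨⟨a0, b0⟩, ⟨a1, b1⟩, ⟨a2, b2⟩, ⟨a3, b3⟩⟩ := rot_re_im (z0 b)
  have hz : (z0 b).re = 1 ∧ (z0 b).im = if b then 1 else 0 := by
    cases b <;> simp [z0]
  rw [hz.1] at a0 b1 a2 b3
  rw [hz.2] at b0 a1 b2 a3
  have one : ∀ t : ℝ, |t| < l / 2 → cs l t = 1 → t = 0 := fun t ht h => cs_eq_one_small hl ht h
  have rho : ∀ t : ℝ, |t| < l / 2 → cs l t = cs l ρ → t = ρ ∨ t = -ρ := fun t ht h => by
    have := cs_inj hl ht hρa h
    rw [abs_of_pos hρ] at this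
    exact (abs_eq hρ.le).1 this
  -- the four values
  have mk0 : ∀ (x y : ℝ), d.re = ρ * x → d.im = ρ * y → (z0 b * I ^ 0).re = x →
      (z0 b * I ^ 0).im = y → ∃ k : Fin 4, d = ρ * (z0 b * I ^ (k : ℕ)) := fun x y e1 e2 e3 e4 =>
    ⟨0, Complex.ext (by rw [Complex.re_ofReal_mul]; change d.re = ρ * (z0 b * I ^ 0).re; rw [e1, e3])
      (by rw [Complex.im_ofReal_mul]; change d.im = ρ * (z0 b * I ^ 0).im; rw [e2, e4])⟩
  have mk1 : ∀ (x y : ℝ), d.re = ρ * x → d.im = ρ * y → (z0 b * I ^ 1).re = x →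
      (z0 b * I ^ 1).im = y → ∃ k : Fin 4, d = ρ * (z0 b * I ^ (k : ℕ)) := fun x y e1 e2 e3 e4 =>
    ⟨1, Complex.ext (by rw [Complex.re_ofReal_mul]; change d.re = ρ * (z0 b * I ^ 1).re; rw [e1, e3])
      (by rw [Complex.im_ofReal_mul]; change d.im = ρ * (z0 b * I ^ 1).im; rw [e2, e4])⟩
  have mk2 : ∀ (x y : ℝ), d.re = ρ * x → d.im = ρ * y → (z0 b * I ^ 2).re = x →
      (z0 b * I ^ 2).im = y → ∃ k : Fin 4, d = ρ * (z0 b * I ^ (k : ℕ)) := fun x y e1 e2 e3 e4 =>
    ⟨2, Complex.ext (by rw [Complex.re_ofReal_mul]; change d.re = ρ * (z0 b * I ^ 2).re; rw [e1, e3])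
      (by rw [Complex.im_ofReal_mul]; change d.im = ρ * (z0 b * I ^ 2).im; rw [e2, e4])⟩
  have mk3 : ∀ (x y : ℝ), d.re = ρ * x → d.im = ρ * y → (z0 b * I ^ 3).re = x →
      (z0 b * I ^ 3).im = y → ∃ k : Fin 4, d = ρ * (z0 b * I ^ (k : ℕ)) := fun x y e1 e2 e3 e4 =>
    ⟨3, Complex.ext (by rw [Complex.re_ofReal_mul]; change d.re = ρ * (z0 b * I ^ 3).re; rw [e1, e3])
      (by rw [Complex.im_ofReal_mul]; change d.im = ρ * (z0 b * I ^ 3).im; rw [e2, e4])⟩
  cases b
  · simp only [C1, C2, Bool.false_eq_true, if_false] at *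
    rcases pair_cases h1 h2 with ⟨h3, h4⟩ | ⟨h3, h4⟩
    · have e1 := one _ hre h3
      rcases rho _ him h4 with e2 | e2
      · exact mk1 _ _ (by rw [e1]; ring) (by rw [e2]; ring) a1 b1
      · exact mk3 _ _ (by rw [e1]; ring) (by rw [e2]; ring) a3 b3
    · have e1 := one _ him h4
      rcases rho _ hre h3 with e2 | e2
      · exact mk0 _ _ (by rw [e2]; ring) (by rw [e1]; ring) a0 b0
      · exact mk2 _ _ (by rw [e2]; ring) (by rw [e1]; ring) a2 b2
  · simp only [C1, C2, if_true] at *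
    have h3 : cs l d.re = cs l ρ ∧ cs l d.im = cs l ρ := by
      rcases pair_cases h1 h2 with h3 | h3 <;> exact h3
    rcases rho _ hre h3.1 with e1 | e1 <;> rcases rho _ him h3.2 with e2 | e2
    · exact mk0 _ _ (by rw [e1]; ring) (by rw [e2]; ring) a0 b0
    · exact mk3 _ _ (by rw [e1]; ring) (by rw [e2]; ring) a3 b3
    · exact mk1 _ _ (by rw [e1]; ring) (by rw [e2]; ring) a1 b1
    · exact mk2 _ _ (by rw [e1]; ring) (by rw [e2]; ring) a2 b2

/-- Whether the coordinate `n` is displaced in the point `W v ρ b m`. -/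
def chi (b : Bool) (m n : Fin 3) : Bool := xor b (decide (n = m))

/-- The points of the surface near the vertex `v`: for `b = false` the points on the edges at
distance `ρ`, for `b = true` the points on the diagonals of the faces. -/
noncomputable def W (v : Space) (ρ : ℝ) (b : Bool) (m : Fin 3) : Space :=
  WithLp.toLp 2 fun n => v n + (if v n = 0 then 1 else -1) * (if chi b m n then ρ else 0)

theorem W_apply (v : Space) (ρ : ℝ) (b : Bool) (m n : Fin 3) :
    W v ρ b m n = v n + (if v n = 0 then 1 else -1) * (if chi b m n then ρ else 0) := rfl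

theorem cs_near_vert {l : ℝ} (hl : 0 < l) {v : Space} (hv : v ∈ Vert l) (n : Fin 3) (e : ℝ) :
    cs l (v n + (if v n = 0 then 1 else -1) * e) = cs l e := by
  have h1 := cs_sub_end hl.ne' (hv n) (v n + (if v n = 0 then 1 else -1) * e)
  rw [← h1, add_sub_cancel_left]
  split_ifs
  · rw [one_mul]
  · rw [neg_one_mul, cs_neg]

theorem W_mem {l ρ : ℝ} (hρ : 0 < ρ) (hρl : ρ < l / 2) {v : Space} (hv : v ∈ Vert l) (b : Bool)
    (m : Fin 3) : W v ρ b m ∈ cubeSurface l := by
  have hl : 0 < l := by linarith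
  constructor
  · intro n
    rw [W_apply]
    rcases hv n with h | h
    · rw [if_pos h, h]
      split_ifs <;> constructor <;> linarith
    · rw [if_neg (by rw [h]; exact hl.ne'), h]
      split_ifs <;> constructor <;> linarith
  · obtain ⟨n, hn⟩ : ∃ n, chi b m n = false := by
      revert b m
      decide
    refine ⟨n, ?_⟩
    rw [W_apply, hn]
    simpa using hv n

theorem W_class {l : ℝ} (hl : 0 < l) (ρ : ℝ) {v : Space} (hv : v ∈ Vert l) (b : Bool)
    (m : Fin 3) : F1 l (W v ρ b m) = C1 l ρ b ∧ F2 l (W v ρ b m) = C2 l ρ b := by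
  unfold F1 F2
  simp only [W_apply]
  rw [cs_near_vert hl hv, cs_near_vert hl hv, cs_near_vert hl hv]
  cases b <;> fin_cases m <;> simp [chi, C1, C2, cs_zero] <;> ring

theorem W_inj {ρ : ℝ} (hρ : 0 < ρ) (v : Space) (b : Bool) : Function.Injective (W v ρ b) := by
  intro m m' h
  by_contra hmm
  have h1 : W v ρ b m m = W v ρ b m' m := by rw [h]
  rw [W_apply, W_apply] at h1
  have h2 : chi b m m = !chi b m' m := by
    cases b <;> simp [chi, hmm]
  rw [h2] at h1
  have h3 : (if v m = 0 then (1 : ℝ) else -1) ≠ 0 := by split_ifs <;> norm_num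
  have h4 := mul_left_cancel₀ h3 (add_left_cancel h1)
  cases hc : chi b m' m <;> rw [hc] at h4 <;> simp at h4 <;> linarith

theorem class_to_W {l ρ : ℝ} (hl : 0 < l) (hρ : 0 < ρ) (hρl : ρ < l / 2) {v w : Space}
    (hv : v ∈ Vert l) (hw : w ∈ cubeSurface l) (hn : ∀ n, |w n - v n| < l / 2) {b : Bool}
    (h1 : F1 l w = C1 l ρ b) (h2 : F2 l w = C2 l ρ b) : ∃ m, w = W v ρ b m := by
  have hρa : |ρ| < l / 2 := by rwa [abs_of_pos hρ]
  have hwe : ∀ n, w n = v n + (if v n = 0 then 1 else -1) * |w n - v n| := by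
    intro n
    rcases hv n with h | h
    · rw [if_pos h, h, sub_zero, abs_of_nonneg (hw.1 n).1]
      ring
    · rw [if_neg (by rw [h]; exact hl.ne'), h, abs_of_nonpos (by linarith [(hw.1 n).2])]
      ring
  have hcs : ∀ n, cs l (w n) = cs l |w n - v n| := by
    intro n
    conv_lhs => rw [hwe n]
    exact cs_near_vert hl hv n _
  have one : ∀ n, cs l (w n) = 1 → |w n - v n| = 0 := by
    intro n h
    rw [hcs n] at h
    exact cs_eq_one_small hl (by rw [abs_abs]; exact hn n) h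
  have rho : ∀ n, cs l (w n) = cs l ρ → |w n - v n| = ρ := by
    intro n h
    rw [hcs n] at h
    have := cs_inj hl (by rw [abs_abs]; exact hn n) hρa h
    rwa [abs_abs, abs_of_pos hρ] at this
  obtain ⟨n0, hn0⟩ := hw.2
  have hn0' : cs l (w n0) = 1 := cs_end hl.ne' hn0
  obtain ⟨i, j, hij, hi, hj⟩ : ∃ i j : Fin 3, i ≠ j ∧ n0 ≠ i ∧ n0 ≠ j := by
    clear hn0' hn0
    revert n0
    decide
  unfold F1 at h1
  unfold F2 at h2
  rw [sum_three hi hj hij (fun m => cs l (w m)), hn0'] at h1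
  rw [prod_three hi hj hij (fun m => cs l (w m)), hn0'] at h2
  have h1' : cs l (w i) + cs l (w j) = C1 l ρ b := by linarith
  have h2' : cs l (w i) * cs l (w j) = C2 l ρ b := by linarith
  have e0 := one n0 hn0'
  cases b
  · simp only [C1, C2, Bool.false_eq_true, if_false] at h1' h2'
    rcases pair_cases h1' h2' with ⟨h3, h4⟩ | ⟨h3, h4⟩
    · have e1 := one i h3
      have e2 := rho j h4
      refine ⟨j, ?_⟩
      ext n
      rw [W_apply, hwe n]
      rcases cases_three hi hj hij n with rfl | rfl | rfl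
      · rw [e0]; simp [chi, hj]
      · rw [e1]; simp [chi, hij]
      · rw [e2]; simp [chi]
    · have e1 := rho i h3
      have e2 := one j h4
      refine ⟨i, ?_⟩
      ext n
      rw [W_apply, hwe n]
      rcases cases_three hi hj hij n with rfl | rfl | rfl
      · rw [e0]; simp [chi, hi]
      · rw [e1]; simp [chi]
      · rw [e2]; simp [chi, hij.symm]
  · simp only [C1, C2, if_true] at h1' h2'
    have h3 : cs l (w i) = cs l ρ ∧ cs l (w j) = cs l ρ := by
      rcases pair_cases h1' h2' with h3 | h3 <;> exact h3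
    have e1 := rho i h3.1
    have e2 := rho j h3.2
    refine ⟨n0, ?_⟩
    ext n
    rw [W_apply, hwe n]
    rcases cases_three hi hj hij n with rfl | rfl | rfl
    · rw [e0]; simp [chi]
    · rw [e1]; simp [chi, hi.symm]
    · rw [e2]; simp [chi, hj.symm]

theorem W_dist {ρ : ℝ} (hρ : 0 < ρ) (v : Space) (b : Bool) (m : Fin 3) :
    dist (W v ρ b m) v ≤ 2 * ρ := by
  rw [← sq_le_sq₀ dist_nonneg (by positivity),
    sq_dist_three (i := 0) (j := 1) (k := 2) (by decide) (by decide) (by decide)]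
  have h : ∀ n, (W v ρ b m n - v n) ^ 2 ≤ ρ ^ 2 := by
    intro n
    rw [W_apply, add_sub_cancel_left]
    split_ifs <;> nlinarith
  have := h 0
  have := h 1
  have := h 2
  nlinarith

end Q47.Cube
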